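import Pool.Agent.H48.WN.Defs

/-!
# [H67 GU UB] trivial bound of the error
-/

set_option autoImplicit false

namespace Pool.Agent.H67.GU

open Finset Pool.Agent.H48.WN

theorem ei_ub (n H : ℕ) (hn : 3 ≤ n) : |EI n H| ≤ H := by
  have hn3 : (3 : ℝ) ≤ n := by exact_mod_cast hn
  have hH0 : (0 : ℝ) ≤ H := Nat.cast_nonneg _
  have h1 : (((Ioc n (n + H)).filter Nat.Prime).card : ℝ) ≤ H := by
    have : ((Ioc n (n + H)).filter Nat.Prime).card ≤ H := by
      refine (card_filter_le _ _).trans ?_
      rw [Nat.card_Ioc]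
      omega
    exact_mod_cast this
  have h2 : (0 : ℝ) ≤ (((Ioc n (n + H)).filter Nat.Prime).card : ℝ) := Nat.cast_nonneg _
  have hlog : ∀ t : ℝ, (n : ℝ) ≤ t → 1 ≤ Real.log t := by
    intro t ht
    rw [Real.le_log_iff_exp_le (by linarith)]
    have := Real.exp_one_lt_d9
    linarith
  have h3 : 0 ≤ ∫ t in (n : ℝ)..(n + H : ℝ), 1 / Real.log t := by
    refine intervalIntegral.integral_nonneg (by linarith) fun t ht => ?_
    have := hlog t ht.1
    positivity
  have h4 : ∫ t in (n : ℝ)..(n + H : ℝ), 1 / Real.log t ≤ H := by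
    have h5 := intervalIntegral.norm_integral_le_of_norm_le_const (a := (n : ℝ)) (b := (n + H : ℝ))
      (f := fun t => 1 / Real.log t) (C := 1) (fun t ht => by
        rw [Set.uIoc_of_le (by linarith)] at ht
        have h6 := hlog t ht.1.le
        rw [Real.norm_eq_abs, abs_of_nonneg (by positivity), div_le_one (by linarith)]
        exact h6)
    rw [add_sub_cancel_left, one_mul, abs_of_nonneg hH0, Real.norm_eq_abs] at h5
    exact (le_abs_self _).trans h5
  unfold EI
  rw [abs_le]
  constructor <;> linarith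

end Pool.Agent.H67.GU
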