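import Mathlib

/-!
# [H67 GU NUM] size estimates for `GU/Core.lean`

`R ~ y`, `w = √y`, `Lg = 1 + log 3X`, `K = Lg^8`, `u ~ y K^8`. All conditions follow from `K^6 ≤ w` and `w^5 K^4 ≤ √x`.
-/

set_option autoImplicit false

namespace Pool.Agent.H67.GU

/-- sizes -/
theorem gu_sz (x w K : ℝ) (hx : 0 < x) (hK : (10 : ℝ) ^ 6 ≤ K) (hw : K ^ 6 ≤ w) (p1 : w ^ 5 * K ^ 4 ≤ √x) :
    w ^ 10 * K ^ 8 ≤ x ∧ w ^ 9 * K ^ 12 ≤ x ∧ 2 ^ 24 * (w ^ 6 * K ^ 24) ≤ x := by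
  have hK0 : 0 < K := by linarith
  have hK1 : 1 ≤ K := by linarith
  have hw0 : 0 < w := lt_of_lt_of_le (by positivity) hw
  have a1 : w ^ 10 * K ^ 8 ≤ x := by
    have h1 : (w ^ 5 * K ^ 4) ^ 2 ≤ (√x) ^ 2 := pow_le_pow_left₀ (by positivity) p1 2
    rw [Real.sq_sqrt hx.le] at h1
    calc w ^ 10 * K ^ 8 = (w ^ 5 * K ^ 4) ^ 2 := by ring
      _ ≤ x := h1
  refine ⟨a1, ?_, ?_⟩
  · have h1 : K ^ 4 ≤ w := (pow_le_pow_right₀ hK1 (by norm_num)).trans hw
    calc w ^ 9 * K ^ 12 = w ^ 9 * K ^ 8 * K ^ 4 := by ring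
      _ ≤ w ^ 9 * K ^ 8 * w := mul_le_mul_of_nonneg_left h1 (by positivity)
      _ = w ^ 10 * K ^ 8 := by ring
      _ ≤ x := a1
  · have h1 : K ^ 24 ≤ w ^ 4 := by
      calc K ^ 24 = (K ^ 6) ^ 4 := by ring
        _ ≤ w ^ 4 := pow_le_pow_left₀ (by positivity) hw 4
    have h2 : (2 : ℝ) ^ 24 ≤ K ^ 8 := by
      calc (2 : ℝ) ^ 24 ≤ ((10 : ℝ) ^ 6) ^ 8 := by norm_num
        _ ≤ K ^ 8 := pow_le_pow_left₀ (by norm_num) hK 8
    calc 2 ^ 24 * (w ^ 6 * K ^ 24) ≤ K ^ 8 * (w ^ 6 * w ^ 4) := by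
          refine mul_le_mul h2 (mul_le_mul_of_nonneg_left h1 (by positivity)) (by positivity) (by positivity)
      _ = w ^ 10 * K ^ 8 := by ring
      _ ≤ x := a1

/-- the sum over the primitive characters -/
theorem gu_n1 (C1 C2 x y w K Lg u l2 S : ℝ) (hC1 : 0 < C1) (hC2 : 0 < C2) (hx0 : 0 < x) (hwy : w ^ 2 = y) (hw1 : 1 ≤ w)
    (hK1 : 1 ≤ K) (hw4K : K ^ 4 ≤ w) (p1 : w ^ 5 * K ^ 4 ≤ √x) (q2 : w ^ 7 * K ^ 12 ≤ x) (hsu : w * K ^ 4 ≤ √u)
    (hur2 : u ≤ 256 * (y * K ^ 8)) (hu0 : 0 ≤ u) (hl20 : 0 ≤ l2) (hl2 : l2 ≤ Lg) (hLg1 : 1 ≤ Lg)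
    (hLgK : 10 ^ 4 * (C1 + C2 + 1) * Lg ^ 7 ≤ K)
    (hS : S ≤ C1 * l2 ^ 5 * (2 * x + 2 * y * (2 * x) / √u + (2 * y) ^ 2 * √(2 * x) + (2 * y) ^ 2 * √(2 * y) * u)) :
    S ≤ w * x / K ^ 3 := by
  have hw0 : 0 < w := by linarith
  have hK0 : 0 < K := by linarith
  have hy0 : 0 < y := by rw [← hwy]; positivity
  have hsu0 : 0 < w * K ^ 4 := by positivity
  have hsx0 : 0 < √x := Real.sqrt_pos.mpr hx0
  have hsx2 : √x * √x = x := Real.mul_self_sqrt hx0.le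
  have hs2X : √(2 * x) ≤ 2 * √x := by
    rw [Real.sqrt_le_left (by positivity), mul_pow, Real.sq_sqrt hx0.le]
    linarith
  have hs2R : √(2 * y) ≤ 2 * w := by
    rw [Real.sqrt_le_left (by positivity), mul_pow, hwy]
    linarith
  obtain ⟨a, ha⟩ : ∃ a : ℝ, a = w * x / K ^ 4 := ⟨_, rfl⟩
  have ha0 : 0 < a := by rw [ha]; positivity
  have hxa : x ≤ a := by
    rw [ha, le_div_iff₀ (by positivity)]
    calc x * K ^ 4 ≤ x * w := mul_le_mul_of_nonneg_left hw4K hx0.le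
      _ = w * x := by ring
  have t2 : 2 * y * (2 * x) / √u ≤ 4 * a := by
    calc 2 * y * (2 * x) / √u ≤ (2 * y) * (2 * x) / (w * K ^ 4) :=
          div_le_div_of_nonneg_left (by positivity) hsu0 hsu
      _ = 4 * a := by
          rw [ha, ← hwy]
          field_simp
          ring
  have t3 : (2 * y) ^ 2 * √(2 * x) ≤ 8 * a := by
    calc (2 * y) ^ 2 * √(2 * x) ≤ (2 * y) ^ 2 * (2 * √x) := mul_le_mul_of_nonneg_left hs2X (by positivity)
      _ = 8 * (w ^ 4 * √x) := by rw [← hwy]; ring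
      _ ≤ 8 * a := by
          refine mul_le_mul_of_nonneg_left ?_ (by norm_num)
          rw [ha, le_div_iff₀ (by positivity)]
          have h2 : w ^ 3 * K ^ 4 ≤ √x :=
            (mul_le_mul_of_nonneg_right (pow_le_pow_right₀ hw1 (by norm_num)) (by positivity)).trans p1
          calc w ^ 4 * √x * K ^ 4 = w * √x * (w ^ 3 * K ^ 4) := by ring
            _ ≤ w * √x * √x := mul_le_mul_of_nonneg_left h2 (by positivity)
            _ = w * x := by rw [mul_assoc, hsx2]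
  have t4 : (2 * y) ^ 2 * √(2 * y) * u ≤ 2048 * a := by
    calc (2 * y) ^ 2 * √(2 * y) * u ≤ (2 * y) ^ 2 * (2 * w) * (256 * (y * K ^ 8)) := by
          refine mul_le_mul (mul_le_mul_of_nonneg_left hs2R (by positivity)) hur2 hu0 (by positivity)
      _ = 2048 * (w ^ 7 * K ^ 8) := by rw [← hwy]; ring
      _ ≤ 2048 * a := by
          refine mul_le_mul_of_nonneg_left ?_ (by norm_num)
          rw [ha, le_div_iff₀ (by positivity)]
          calc w ^ 7 * K ^ 8 * K ^ 4 = w ^ 7 * K ^ 12 := by ring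
            _ ≤ x := q2
            _ ≤ w * x := le_mul_of_one_le_left hx0.le hw1
  have hsum : 2 * x + 2 * y * (2 * x) / √u + (2 * y) ^ 2 * √(2 * x) + (2 * y) ^ 2 * √(2 * y) * u ≤ 2062 * a := by
    linarith
  have hpow : l2 ^ 5 ≤ Lg ^ 5 := pow_le_pow_left₀ hl20 hl2 5
  refine hS.trans ?_
  calc C1 * l2 ^ 5 * _ ≤ C1 * Lg ^ 5 * (2062 * a) := by
        refine mul_le_mul (mul_le_mul_of_nonneg_left hpow hC1.le) hsum (by positivity) (by positivity)
    _ = (2062 * C1 * Lg ^ 5) * a := by ring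
    _ ≤ K * a := by
        refine mul_le_mul_of_nonneg_right ?_ ha0.le
        have h2 : Lg ^ 5 ≤ Lg ^ 7 := pow_le_pow_right₀ hLg1 (by norm_num)
        have h3 : 2062 * C1 * Lg ^ 5 ≤ 10 ^ 4 * (C1 + C2 + 1) * Lg ^ 7 :=
          mul_le_mul (by linarith) h2 (by positivity) (by positivity)
        linarith
    _ = w * x / K ^ 3 := by
        rw [ha]
        field_simp

/-- the second order term -/
theorem gu_n2 (C1 C2 x y w K Lg u h P S D : ℝ) (hC1 : 0 < C1) (hC2 : 0 < C2) (hx1 : 1 ≤ x) (hwy : w ^ 2 = y) (hw1 : 1 ≤ w)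
    (hK6 : (10 : ℝ) ^ 6 ≤ K) (hw4K : K ^ 4 ≤ w) (p1 : w ^ 5 * K ^ 4 ≤ √x) (p3 : w ^ 9 * K ^ 12 ≤ x) (q2 : w ^ 7 * K ^ 12 ≤ x)
    (hsu : w * K ^ 4 ≤ √u) (hur2 : u ≤ 256 * (y * K ^ 8)) (hLg1 : 1 ≤ Lg) (hKL : 10 ^ 4 * Lg ≤ K)
    (hLgK : 10 ^ 4 * (C1 + C2 + 1) * Lg ^ 7 ≤ K) (hh0 : 0 ≤ h) (hHy : h ≤ 3 * y) (hS0 : 0 ≤ S) (hD0 : 0 ≤ D)
    (hSC : S ≤ w * x / K ^ 3) (hmv : D ≤ C2 * Lg ^ 5 * (x + y ^ 2 * x / √u + y ^ 4 * √x + y ^ 5 * u))
    (hp : P ≤ h * x * Lg + 2 * h * (√(2 * y) * Lg) / y * S + 2 * h * Lg ^ 2 / y * D +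
      10 * h ^ 2 * y ^ 2 * Lg + 4 * h * y ^ 4) :
    P * K ^ 3 ≤ x * (y * w) := by
  have hx0 : 0 < x := by linarith
  have hw0 : 0 < w := by linarith
  have hK0 : 0 < K := by linarith
  have hK1 : 1 ≤ K := by linarith
  have hLg0 : 0 < Lg := by linarith
  have hy1 : 1 ≤ y := by
    rw [← hwy]
    exact one_le_pow₀ hw1
  have hy0 : 0 < y := by linarith
  have hsu0 : 0 < w * K ^ 4 := by positivity
  have hsx0 : 0 < √x := Real.sqrt_pos.mpr hx0
  have hsx2 : √x * √x = x := Real.mul_self_sqrt hx0.le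
  have hs2y : √(2 * y) ≤ 2 * w := by
    rw [Real.sqrt_le_left (by positivity), mul_pow, hwy]
    linarith
  have hK39 : 10 ^ 18 * K ^ 3 ≤ K ^ 12 := by
    calc 10 ^ 18 * K ^ 3 = ((10 : ℝ) ^ 6) ^ 3 * K ^ 3 := by norm_num
      _ ≤ K ^ 3 * K ^ 3 := mul_le_mul_of_nonneg_right (pow_le_pow_left₀ (by norm_num) hK6 3) (by positivity)
      _ = K ^ 6 := by ring
      _ ≤ K ^ 12 := pow_le_pow_right₀ hK1 (by norm_num)
  obtain ⟨b, hb⟩ : ∃ b : ℝ, b = y * w * x / K ^ 4 := ⟨_, rfl⟩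
  have hb0 : 0 < b := by rw [hb]; positivity
  have s1 : x ≤ b := by
    rw [hb, le_div_iff₀ (by positivity)]
    calc x * K ^ 4 ≤ x * w := mul_le_mul_of_nonneg_left hw4K hx0.le
      _ = 1 * w * x := by ring
      _ ≤ y * w * x := mul_le_mul_of_nonneg_right (mul_le_mul_of_nonneg_right hy1 hw0.le) hx0.le
  have s2 : y ^ 2 * x / √u ≤ b := by
    calc y ^ 2 * x / √u ≤ y ^ 2 * x / (w * K ^ 4) :=
          div_le_div_of_nonneg_left (by positivity) hsu0 hsu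
      _ = b := by
          rw [hb, ← hwy]
          field_simp
  have s3 : y ^ 4 * √x ≤ b := by
    rw [hb, le_div_iff₀ (by positivity)]
    calc y ^ 4 * √x * K ^ 4 = y * w * √x * (w ^ 5 * K ^ 4) := by rw [← hwy]; ring
      _ ≤ y * w * √x * √x := mul_le_mul_of_nonneg_left p1 (by positivity)
      _ = y * w * x := by rw [mul_assoc, hsx2]
  have s4 : y ^ 5 * u ≤ 256 * b := by
    calc y ^ 5 * u ≤ y ^ 5 * (256 * (y * K ^ 8)) := mul_le_mul_of_nonneg_left hur2 (by positivity)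
      _ = 256 * (y ^ 6 * K ^ 8) := by ring
      _ ≤ 256 * b := by
          refine mul_le_mul_of_nonneg_left ?_ (by norm_num)
          rw [hb, le_div_iff₀ (by positivity)]
          calc y ^ 6 * K ^ 8 * K ^ 4 = y * w * (w ^ 9 * K ^ 12) := by rw [← hwy]; ring
            _ ≤ y * w * x := mul_le_mul_of_nonneg_left p3 (by positivity)
  have hD1 : D ≤ C2 * Lg ^ 5 * (259 * b) := by
    refine hmv.trans (mul_le_mul_of_nonneg_left ?_ (by positivity))
    linarith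
  obtain ⟨V, hV⟩ : ∃ V : ℝ, V = x * (y * w) := ⟨_, rfl⟩
  have hV0 : 0 < V := by rw [hV]; positivity
  have hbV : b * K ^ 4 = V := by
    rw [hb, hV]
    field_simp
  rw [← hV]
  have hL1w : 60 * Lg ≤ w := by
    have : K ≤ w := by
      calc K = K ^ 1 := (pow_one K).symm
        _ ≤ K ^ 4 := pow_le_pow_right₀ hK1 (by norm_num)
        _ ≤ w := hw4K
    linarith
  have hLK3 : 15 * Lg * K ^ 3 ≤ w := by
    calc 15 * Lg * K ^ 3 ≤ K * K ^ 3 := mul_le_mul_of_nonneg_right (by linarith) (by positivity)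
      _ = K ^ 4 := by ring
      _ ≤ w := hw4K
  have r1 : h * x * Lg * K ^ 3 ≤ V / 5 := by
    calc h * x * Lg * K ^ 3 ≤ 3 * y * x * Lg * K ^ 3 := by
          have h3 : 0 ≤ x * Lg * K ^ 3 := by positivity
          have h4 := mul_le_mul_of_nonneg_right hHy h3
          linarith
      _ = y * x * (15 * Lg * K ^ 3) / 5 := by ring
      _ ≤ y * x * w / 5 := div_le_div_of_nonneg_right (mul_le_mul_of_nonneg_left hLK3 (by positivity)) (by norm_num)
      _ = V / 5 := by rw [hV]; ring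
  have hHR : 2 * h / y ≤ 6 := by
    rw [div_le_iff₀ hy0]
    linarith
  have r2 : 2 * h * (√(2 * y) * Lg) / y * S * K ^ 3 ≤ V / 5 := by
    calc 2 * h * (√(2 * y) * Lg) / y * S * K ^ 3
        = (2 * h / y) * √(2 * y) * Lg * S * K ^ 3 := by ring
      _ ≤ 6 * (2 * w) * Lg * (w * x / K ^ 3) * K ^ 3 := by
          refine mul_le_mul_of_nonneg_right ?_ (by positivity)
          refine mul_le_mul (mul_le_mul_of_nonneg_right (mul_le_mul hHR hs2y (Real.sqrt_nonneg _) (by norm_num)) hLg0.le)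
            hSC hS0 (by positivity)
      _ = y * x * (60 * Lg) / 5 := by
          rw [← hwy]
          field_simp
          ring
      _ ≤ y * x * w / 5 := div_le_div_of_nonneg_right (mul_le_mul_of_nonneg_left hL1w (by positivity)) (by norm_num)
      _ = V / 5 := by rw [hV]; ring
  have r3 : 2 * h * Lg ^ 2 / y * D * K ^ 3 ≤ V / 5 := by
    calc 2 * h * Lg ^ 2 / y * D * K ^ 3 = (2 * h / y) * Lg ^ 2 * D * K ^ 3 := by ring
      _ ≤ 6 * Lg ^ 2 * (C2 * Lg ^ 5 * (259 * b)) * K ^ 3 := by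
          refine mul_le_mul_of_nonneg_right ?_ (by positivity)
          exact mul_le_mul (mul_le_mul_of_nonneg_right hHR (by positivity)) hD1 hD0 (by positivity)
      _ = (7770 * C2 * Lg ^ 7) * (b * K ^ 3) / 5 := by ring
      _ ≤ K * (b * K ^ 3) / 5 := by
          refine div_le_div_of_nonneg_right (mul_le_mul_of_nonneg_right ?_ (by positivity)) (by norm_num)
          have h3 : 7770 * C2 * Lg ^ 7 ≤ 10 ^ 4 * (C1 + C2 + 1) * Lg ^ 7 :=
            mul_le_mul_of_nonneg_right (by linarith) (by positivity)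
          linarith
      _ = V / 5 := by
          rw [← hbV]
          ring
  have r4 : 10 * h ^ 2 * y ^ 2 * Lg * K ^ 3 ≤ V / 5 := by
    have h1 : h ^ 2 ≤ 9 * y ^ 2 := by
      calc h ^ 2 ≤ (3 * y) ^ 2 := pow_le_pow_left₀ hh0 hHy 2
        _ = 9 * y ^ 2 := by ring
    calc 10 * h ^ 2 * y ^ 2 * Lg * K ^ 3 ≤ 10 * (9 * y ^ 2) * y ^ 2 * Lg * K ^ 3 := by
          have h3 : 0 ≤ 10 * (y ^ 2 * Lg * K ^ 3) := by positivity
          have h4 := mul_le_mul_of_nonneg_right h1 h3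
          linarith
      _ = y * w * (w ^ 5 * (450 * Lg) * K ^ 3) / 5 := by rw [← hwy]; ring
      _ ≤ y * w * (w ^ 5 * K * K ^ 3) / 5 := by
          refine div_le_div_of_nonneg_right (mul_le_mul_of_nonneg_left ?_ (by positivity)) (by norm_num)
          refine mul_le_mul_of_nonneg_right (mul_le_mul_of_nonneg_left (by linarith) (by positivity)) (by positivity)
      _ = y * w * (w ^ 5 * K ^ 4) / 5 := by ring
      _ ≤ y * w * √x / 5 :=
          div_le_div_of_nonneg_right (mul_le_mul_of_nonneg_left p1 (by positivity)) (by norm_num)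
      _ ≤ y * w * x / 5 := by
          refine div_le_div_of_nonneg_right (mul_le_mul_of_nonneg_left ?_ (by positivity)) (by norm_num)
          rw [Real.sqrt_le_left hx0.le, sq]
          exact le_mul_of_one_le_left hx0.le hx1
      _ = V / 5 := by rw [hV]; ring
  have r5 : 4 * h * y ^ 4 * K ^ 3 ≤ V / 5 := by
    calc 4 * h * y ^ 4 * K ^ 3 ≤ 4 * (3 * y) * y ^ 4 * K ^ 3 := by
          have h3 : 0 ≤ 4 * (y ^ 4 * K ^ 3) := by positivity
          have h4 := mul_le_mul_of_nonneg_right hHy h3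
          linarith
      _ = y * w * (w ^ 7 * (60 * K ^ 3)) / 5 := by rw [← hwy]; ring
      _ ≤ y * w * (w ^ 7 * K ^ 12) / 5 := by
          refine div_le_div_of_nonneg_right (mul_le_mul_of_nonneg_left (mul_le_mul_of_nonneg_left ?_ (by positivity))
            (by positivity)) (by norm_num)
          linarith [(by positivity : 0 ≤ K ^ 3)]
      _ ≤ y * w * x / 5 :=
          div_le_div_of_nonneg_right (mul_le_mul_of_nonneg_left q2 (by positivity)) (by norm_num)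
      _ = V / 5 := by rw [hV]; ring
  have hp' := mul_le_mul_of_nonneg_right hp (by positivity : 0 ≤ K ^ 3)
  refine hp'.trans ?_
  have e : (h * x * Lg + 2 * h * (√(2 * y) * Lg) / y * S + 2 * h * Lg ^ 2 / y * D +
      10 * h ^ 2 * y ^ 2 * Lg + 4 * h * y ^ 4) * K ^ 3 =
      h * x * Lg * K ^ 3 + 2 * h * (√(2 * y) * Lg) / y * S * K ^ 3 +
        2 * h * Lg ^ 2 / y * D * K ^ 3 + 10 * h ^ 2 * y ^ 2 * Lg * K ^ 3 + 4 * h * y ^ 4 * K ^ 3 := by ring
  rw [e]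
  linarith

end Pool.Agent.H67.GU
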