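import Pool.Agent.H67.GU.Lem
import Pool.Agent.H67.GU.Num
import Pool.Agent.H24.TL.Gce

/-!
# [H67 GU CORE] the one sided lower bound for every length `(log X)^k ≤ H ≤ X^(1/5-ε)`

PROOF. `R = ⌊H/2⌋`, `y = R`, `w = √y`, `Lg = 1 + log 3X`, `K = Lg^8`, `u = R ⌈K⌉^8`. `H ≥ Lg^100` gives `w ≥ K^6`, `H ≤ X^(1/5-ε)` gives
`w^5 K^4 ≤ √X` (`p1`); all other size conditions follow from these two. `th_mean`: `∑ SC ≤ w X/K^3`; `gu_T`, `gM`, `gu_b2`: `-∑ G ET ≥ N X/600`;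
`gu_p2`, `mv2`: `P2 K^3 ≤ X y w`; `kap`, `gu_f2`: `w X/K^3 ≤ κ X + ∑ |EI|`.
-/

set_option autoImplicit false

namespace Pool.Agent.H67.GU

open Finset Pool.Agent.H67.VS Pool.Agent.H48.WN Pool.Agent.H99.GB Pool.Agent.H99.GC Pool.Agent.H67.VU Pool.Agent.H24.TL Filter

/-- the weighted square -/
theorem gu_kap (X H R : ℕ) (s κ L K Lg x y w T S : ℝ) (Ex : Finset ℕ) (hs : s = 1 ∨ s = -1) (hκ0 : 0 ≤ κ) (hX3 : 3 ≤ X)
    (hH1n : 1 ≤ H) (hHX : H ≤ X) (hH2X : H ^ 2 ≤ X) (hR1n : 1 ≤ R) (hx : x = X) (hy : y = R) (hy4 : y ^ 4 ≤ x)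
    (hLL : L = Real.log (3 * X)) (hL0 : 0 ≤ L) (hLLg : L ≤ Lg) (hK : K = Lg ^ 8) (hKL : 10 ^ 4 * Lg ≤ K) (hLg1 : 1 ≤ Lg)
    (hw0 : 0 < w) (hwy : w ^ 2 = y) (hHy : (H : ℝ) ≤ 3 * y) (hy1 : 1 ≤ y)
    (hEx : Ex = (Ioc X (2 * X)).filter fun n => s * EI n H < -κ)
    (hκ : (Ex.card : ℝ) * (H * Lg ^ 48) ≤ X)
    (hT : T = ∑ i ∈ Ioc X (2 * X), G (QQ R) H i * ET i H) (hS : S = ∑ i ∈ Ioc X (2 * X), |ET i H|) :
    ∃ W : ℝ, W * K ^ 2 ≤ ((QQ R).card : ℝ) * (x * w) ∧ 2 * Real.sqrt ((QQ R).card : ℝ) * (-T) ≤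
      (κ * L + 2) * (2 * ((QQ R).card : ℝ) * x + 2 * ∑ i ∈ Ioc X (2 * X), G (QQ R) H i ^ 2) + W +
        2 * ((QQ R).card : ℝ) * S + 2 * P2 X H R := by
  have hExs : Ex ⊆ Ioc X (2 * X) := by
    rw [hEx]
    exact Finset.filter_subset _ _
  have hx0 : 0 < x := by
    rw [hx]
    exact_mod_cast (by omega : 0 < X)
  have hLg0 : 0 < Lg := by linarith
  have hK0 : 0 < K := by rw [hK]; positivity
  obtain ⟨D, hD⟩ : ∃ D : ℝ, D = 2 * H * L := ⟨_, rfl⟩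
  have hD0 : 0 ≤ D := by rw [hD]; positivity
  obtain ⟨kf, hkf⟩ : ∃ kf : ℕ → ℝ, ∀ n, kf n = (κ * L + 2) + (if n ∈ Ex then D else 0) := ⟨_, fun n => rfl⟩
  have he : ∀ n ∈ Ioc X (2 * X), -(kf n) ≤ s * ET n H := by
    intro n hn
    rw [hkf]
    by_cases hnE : n ∈ Ex
    · rw [if_pos hnE]
      have h1 := gu_et X n H hn hHX
      rw [← hLL, ← hD] at h1
      have h2 := abs_le.mp h1
      have h3 : -D ≤ s * ET n H := by
        rcases hs with h | h <;> rw [h] <;> linarith [h2.1, h2.2]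
      have h4 : 0 ≤ κ * L + 2 := by positivity
      linarith
    rw [if_neg hnE, add_zero]
    have hn2 : -κ ≤ s * EI n H := by
      by_contra hcon
      apply hnE
      rw [hEx, mem_filter]
      exact ⟨hn, lt_of_not_ge hcon⟩
    rw [mem_Ioc] at hn
    have h2 := trf n H (by omega) (by omega)
    have h3 : Real.log n ≤ L := by
      rw [hLL]
      refine Real.log_le_log ?_ ?_
      · have : 0 < n := by omega
        exact_mod_cast this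
      · have : n ≤ 3 * X := by omega
        exact_mod_cast this
    have h4 : 0 ≤ Real.log n := Real.log_natCast_nonneg n
    have h5 : -(κ * L) ≤ Real.log n * (s * EI n H) := by
      have h6 : Real.log n * (-κ) ≤ Real.log n * (s * EI n H) := mul_le_mul_of_nonneg_left hn2 h4
      have h7 : κ * Real.log n ≤ κ * L := mul_le_mul_of_nonneg_left h3 hκ0
      linarith
    have h6 : -2 ≤ s * (ET n H - Real.log n * EI n H) := by
      have h7 := abs_le.mp h2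
      rcases hs with h | h <;> rw [h] <;> linarith [h7.1, h7.2]
    have h7 : s * ET n H = s * (ET n H - Real.log n * EI n H) + Real.log n * (s * EI n H) := by ring
    rw [h7]
    linarith
  have hkap := kapf (Ioc X (2 * X)) (QQ R) (fun q i => ph H q i) (fun i => ET i H) kf s hs
    (fun n _ => by
      rw [hkf]
      have h1 : 0 ≤ κ * L + 2 := by positivity
      split_ifs <;> linarith) (fun q hq i _ => by
      unfold QQ at hq
      rw [mem_filter] at hq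
      exact gu_ph H q i hq.2.pos) he
  have h2X : 2 * X - X = X := by omega
  obtain ⟨W, hW⟩ : ∃ W : ℝ, W = ∑ i ∈ Ex, D * (2 * ((QQ R).card : ℝ) + 2 * G (QQ R) H i ^ 2) := ⟨_, rfl⟩
  have hsplit : ∑ i ∈ Ioc X (2 * X), kf i * (2 * ((QQ R).card : ℝ) + 2 * G (QQ R) H i ^ 2) =
      (κ * L + 2) * (2 * ((QQ R).card : ℝ) * x + 2 * ∑ i ∈ Ioc X (2 * X), G (QQ R) H i ^ 2) + W := by
    have e1 : ∀ i, kf i * (2 * ((QQ R).card : ℝ) + 2 * G (QQ R) H i ^ 2) =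
        (κ * L + 2) * (2 * ((QQ R).card : ℝ) + 2 * G (QQ R) H i ^ 2) +
          (if i ∈ Ex then D * (2 * ((QQ R).card : ℝ) + 2 * G (QQ R) H i ^ 2) else 0) := by
      intro i
      rw [hkf]
      split_ifs <;> ring
    rw [Finset.sum_congr rfl fun i _ => e1 i, Finset.sum_add_distrib, ← Finset.sum_filter,
      Finset.filter_mem_eq_inter, Finset.inter_eq_right.mpr hExs, ← hW, ← Finset.mul_sum, Finset.sum_add_distrib,
      Finset.sum_const, Nat.card_Ioc, h2X, nsmul_eq_mul, ← Finset.mul_sum, ← hx]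
    ring
  have hkap2 : 2 * Real.sqrt ((QQ R).card : ℝ) * (-T) ≤
      (κ * L + 2) * (2 * ((QQ R).card : ℝ) * x + 2 * ∑ i ∈ Ioc X (2 * X), G (QQ R) H i ^ 2) + W +
        2 * ((QQ R).card : ℝ) * S + 2 * P2 X H R := by
    rw [hT, hS, ← hsplit]
    exact hkap
  -- the exceptions
  have hHp : (0 : ℝ) < H := by exact_mod_cast hH1n
  have hsH0 : 0 < √(H : ℝ) := Real.sqrt_pos.mpr hHp
  have hsHH : √(H : ℝ) * √(H : ℝ) = H := Real.mul_self_sqrt hHp.le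
  have hsH : √(H : ℝ) ≤ 2 * w := by
    rw [Real.sqrt_le_left (by positivity), mul_pow, hwy]
    linarith
  obtain ⟨b, hb⟩ : ∃ b : ℝ, b = x / (√(H : ℝ) * K ^ 3) := ⟨_, rfl⟩
  have hb0 : 0 < b := by rw [hb]; positivity
  have hcb : (Ex.card : ℝ) * x ≤ b ^ 2 := by
    have e0 : b ^ 2 = x / (H * K ^ 6) * x := by
      rw [hb, div_pow, mul_pow, sq (√(H : ℝ)), hsHH]
      ring
    rw [e0]
    refine mul_le_mul_of_nonneg_right ?_ hx0.le
    rw [le_div_iff₀ (by positivity), hx, hK]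
    calc (Ex.card : ℝ) * (H * (Lg ^ 8) ^ 6) = (Ex.card : ℝ) * (H * Lg ^ 48) := by ring
      _ ≤ (X : ℝ) := hκ
  have hWb : W * K ^ 2 ≤ ((QQ R).card : ℝ) * (x * w) := by
    have e1 := gu_ex X H R x y D b Ex hExs (by omega) hR1n hx (by rw [← hy]) hy4 hD0 hb0.le hcb
    rw [← hW] at e1
    have e2 : W * K ^ 2 ≤ 86 * D * ((QQ R).card : ℝ) * b * K ^ 2 := mul_le_mul_of_nonneg_right e1 (by positivity)
    refine e2.trans ?_
    have e3 : 86 * D * ((QQ R).card : ℝ) * b * K ^ 2 = ((QQ R).card : ℝ) * (x * (172 * L * √(H : ℝ) / K)) := by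
      rw [hD, hb]
      have e5 : 86 * (2 * (H : ℝ) * L) = 172 * L * (√(H : ℝ) * √(H : ℝ)) := by rw [hsHH]; ring
      rw [e5]
      field_simp
    rw [e3]
    refine mul_le_mul_of_nonneg_left (mul_le_mul_of_nonneg_left ?_ hx0.le) (Nat.cast_nonneg _)
    rw [div_le_iff₀ hK0]
    calc 172 * L * √(H : ℝ) ≤ 172 * Lg * (2 * w) :=
          mul_le_mul (by linarith) hsH hsH0.le (by positivity)
      _ = w * (344 * Lg) := by ring
      _ ≤ w * K := mul_le_mul_of_nonneg_left (by linarith) hw0.le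
  exact ⟨W, hWb, hkap2⟩

theorem gu (ε : ℝ) (hε : 0 < ε) : ∃ X0 : ℕ, ∀ X : ℕ, X0 ≤ X → ∀ H : ℕ,
    (1 + Real.log (3 * X)) ^ 100 ≤ H → (H : ℝ) ≤ (X : ℝ) ^ (1 / 5 - ε) → ∀ s κ : ℝ, s = 1 ∨ s = -1 → 0 ≤ κ →
    ((((Ioc X (2 * X)).filter fun n => s * EI n H < -κ).card : ℕ) : ℝ) * (H * (1 + Real.log (3 * X)) ^ 48) ≤ X →
    √(H : ℝ) * X ≤ (1 + Real.log (3 * X)) ^ 32 * (κ * X + ∑ n ∈ Ioc X (2 * X), |EI n H|) := by
  obtain ⟨C1, hC1, hth⟩ := th_mean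
  obtain ⟨C2, hC2, hmv2⟩ := mv2
  obtain ⟨R0, hgM⟩ := gM
  obtain ⟨R1, hR1p⟩ := eventually_atTop.1 (pntA (1 / 2) (by norm_num))
  obtain ⟨X1, hX1⟩ := mv_log 1 (2 * ε) zero_le_one (by linarith) 32
  obtain ⟨M0, hM0⟩ : ∃ M0 : ℝ, M0 = 10 ^ 4 * (C1 + C2 + 1) + R0 + R1 := ⟨_, rfl⟩
  have ev : ∀ᶠ X : ℕ in atTop, M0 ≤ 1 + Real.log (3 * X) := by
    have h1 : Tendsto (fun X : ℕ => 1 + Real.log (3 * (X : ℝ))) atTop atTop := by
      refine tendsto_atTop_add_const_left _ _ (Real.tendsto_log_atTop.comp ?_)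
      exact (tendsto_natCast_atTop_atTop).const_mul_atTop (by norm_num)
    exact h1.eventually_ge_atTop M0
  obtain ⟨X2, hX2⟩ := eventually_atTop.1 ev
  refine ⟨max (max X1 X2) (max R1 3), fun X hX H hH1 hH2 s κ hs hκ0 hκ => ?_⟩
  have g1 : X1 ≤ X := (le_max_left _ _).trans ((le_max_left _ _).trans hX)
  have g2 : X2 ≤ X := (le_max_right _ _).trans ((le_max_left _ _).trans hX)
  have g3 : R1 ≤ X := (le_max_left _ _).trans ((le_max_right _ _).trans hX)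
  have hX3 : 3 ≤ X := (le_max_right _ _).trans ((le_max_right _ _).trans hX)
  have hlogX := hX1 X g1
  have hM := hX2 X g2
  obtain ⟨Lg, hLg⟩ : ∃ Lg : ℝ, Lg = 1 + Real.log (3 * X) := ⟨_, rfl⟩
  rw [← hLg] at hH1 hlogX hM hκ ⊢
  obtain ⟨Ex, hEx⟩ : ∃ Ex : Finset ℕ, Ex = (Ioc X (2 * X)).filter fun n => s * EI n H < -κ := ⟨_, rfl⟩
  rw [← hEx] at hκ
  obtain ⟨x, hx⟩ : ∃ x : ℝ, x = (X : ℝ) := ⟨_, rfl⟩
  have hx3 : (3 : ℝ) ≤ x := by rw [hx]; exact_mod_cast hX3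
  have hx1 : (1 : ℝ) ≤ x := by linarith
  have hx0 : (0 : ℝ) < x := by linarith
  have hXp : (0 : ℝ) < X := by rw [← hx]; exact hx0
  have hR0' : (0 : ℝ) ≤ R0 := Nat.cast_nonneg _
  have hR1' : (0 : ℝ) ≤ R1 := Nat.cast_nonneg _
  have hLg4 : 10 ^ 4 * (C1 + C2 + 1) ≤ Lg := by linarith
  have hLgR0 : (R0 : ℝ) ≤ Lg := by
    have : 0 ≤ 10 ^ 4 * (C1 + C2 + 1) := by positivity
    linarith
  have hLgR1 : (R1 : ℝ) ≤ Lg := by
    have : 0 ≤ 10 ^ 4 * (C1 + C2 + 1) := by positivity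
    linarith
  have hLg1 : (10 : ℝ) ^ 4 ≤ Lg := by linarith
  have hLg0 : (0 : ℝ) < Lg := by linarith
  have hLg1' : (1 : ℝ) ≤ Lg := by linarith
  obtain ⟨K, hK⟩ : ∃ K : ℝ, K = Lg ^ 8 := ⟨_, rfl⟩
  have hLgK : 10 ^ 4 * (C1 + C2 + 1) * Lg ^ 7 ≤ K := by
    rw [hK]
    calc 10 ^ 4 * (C1 + C2 + 1) * Lg ^ 7 ≤ Lg * Lg ^ 7 := mul_le_mul_of_nonneg_right hLg4 (by positivity)
      _ = Lg ^ 8 := by ring
  have hKL : 10 ^ 4 * Lg ≤ K := by
    rw [hK]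
    calc 10 ^ 4 * Lg ≤ Lg * Lg := mul_le_mul_of_nonneg_right hLg1 hLg0.le
      _ = Lg ^ 2 := by ring
      _ ≤ Lg ^ 8 := pow_le_pow_right₀ hLg1' (by norm_num)
  have hK6 : (10 : ℝ) ^ 6 ≤ K := by linarith
  have hK1 : (1 : ℝ) ≤ K := by linarith
  have hK0 : (0 : ℝ) < K := by linarith
  have hlog : Real.log (3 * X) ≤ K := by linarith
  -- `R`
  obtain ⟨R, hR⟩ : ∃ R : ℕ, R = H / 2 := ⟨_, rfl⟩
  have hRH1 : 2 * R ≤ H := by omega
  have hRH2 : H ≤ 2 * R + 1 := by omega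
  have hRH1r : 2 * (R : ℝ) ≤ H := by exact_mod_cast hRH1
  have hRH2r : (H : ℝ) ≤ 2 * R + 1 := by exact_mod_cast hRH2
  have hKH : K ^ 12 * Lg ^ 4 ≤ (H : ℝ) := by
    rw [hK]
    calc (Lg ^ 8) ^ 12 * Lg ^ 4 = Lg ^ 100 := by ring
      _ ≤ (H : ℝ) := hH1
  have hL43 : (3 : ℝ) ≤ Lg ^ 4 := by
    calc (3 : ℝ) ≤ Lg ^ 1 := by rw [pow_one]; linarith
      _ ≤ Lg ^ 4 := pow_le_pow_right₀ hLg1' (by norm_num)
  have hK12 : 1 ≤ K ^ 12 := one_le_pow₀ hK1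
  have hRK : K ^ 12 ≤ (R : ℝ) := by
    have h1 : K ^ 12 * 3 ≤ (H : ℝ) := (mul_le_mul_of_nonneg_left hL43 (by positivity)).trans hKH
    linarith
  obtain ⟨y, hy⟩ : ∃ y : ℝ, y = (R : ℝ) := ⟨_, rfl⟩
  rw [← hy] at hRK hRH1r hRH2r
  have hKy : K ≤ y := by
    calc K = K ^ 1 := (pow_one K).symm
      _ ≤ K ^ 12 := pow_le_pow_right₀ hK1 (by norm_num)
      _ ≤ y := hRK
  have hy1 : (1 : ℝ) ≤ y := by linarith
  have hy0 : (0 : ℝ) < y := by linarith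
  have hR1n : 1 ≤ R := by
    have : (1 : ℝ) ≤ R := by rw [← hy]; exact hy1
    exact_mod_cast this
  have hHy : (H : ℝ) ≤ 3 * y := by linarith
  have hLgK' : Lg ≤ K := by linarith
  have hRR0 : R0 ≤ R := by
    have : (R0 : ℝ) ≤ R := by rw [← hy]; linarith
    exact_mod_cast this
  have hRR1 : R1 ≤ R := by
    have : (R1 : ℝ) ≤ R := by rw [← hy]; linarith
    exact_mod_cast this
  obtain ⟨w, hw⟩ : ∃ w : ℝ, w = √y := ⟨_, rfl⟩
  have hwy : w ^ 2 = y := by rw [hw]; exact Real.sq_sqrt hy0.le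
  have hw0 : 0 < w := by rw [hw]; exact Real.sqrt_pos.mpr hy0
  have hwK : K ^ 6 ≤ w := by
    rw [hw]
    apply Real.le_sqrt_of_sq_le
    calc (K ^ 6) ^ 2 = K ^ 12 := by ring
      _ ≤ y := hRK
  have hw1 : 1 ≤ w := (one_le_pow₀ hK1).trans hwK
  have hw4K : K ^ 4 ≤ w := (pow_le_pow_right₀ hK1 (by norm_num)).trans hwK
  -- the size condition
  have p1 : w ^ 5 * K ^ 4 ≤ √x := by
    have e1 : w ^ 5 = y ^ (5 / 2 : ℝ) := by
      rw [hw, Real.sqrt_eq_rpow, ← Real.rpow_natCast, ← Real.rpow_mul hy0.le]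
      norm_num
    have e2 : y ^ (5 / 2 : ℝ) ≤ x ^ (1 / 2 - 5 / 2 * ε) := by
      calc y ^ (5 / 2 : ℝ) ≤ (x ^ (1 / 5 - ε)) ^ (5 / 2 : ℝ) := by
            refine Real.rpow_le_rpow hy0.le ?_ (by norm_num)
            rw [hx]
            linarith
        _ = x ^ (1 / 2 - 5 / 2 * ε) := by
            rw [← Real.rpow_mul hx0.le]
            congr 1
            ring
    have e3 : K ^ 4 ≤ x ^ (2 * ε) := by
      rw [hK, hx]
      calc (Lg ^ 8) ^ 4 = 1 * Lg ^ 32 := by ring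
        _ ≤ _ := hlogX
    rw [e1, Real.sqrt_eq_rpow]
    calc y ^ (5 / 2 : ℝ) * K ^ 4 ≤ x ^ (1 / 2 - 5 / 2 * ε) * x ^ (2 * ε) :=
          mul_le_mul e2 e3 (by positivity) (by positivity)
      _ = x ^ (1 / 2 - 5 / 2 * ε + 2 * ε) := (Real.rpow_add hx0 _ _).symm
      _ ≤ x ^ (1 / 2 : ℝ) := Real.rpow_le_rpow_of_exponent_le hx1 (by linarith)
  obtain ⟨p2, p3, p4⟩ := gu_sz x w K hx0 hK6 hwK p1
  -- `w^a K^b ≤ x` in smaller cases
  have q1 : w ^ 8 * K ^ 12 ≤ x := by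
    refine le_trans (mul_le_mul_of_nonneg_right (pow_le_pow_right₀ hw1 (by norm_num)) (by positivity)) p3
  have q2 : w ^ 7 * K ^ 12 ≤ x := by
    refine le_trans (mul_le_mul_of_nonneg_right (pow_le_pow_right₀ hw1 (by norm_num)) (by positivity)) p3
  have q3 : w ^ 4 * K ^ 12 ≤ x := by
    refine le_trans (mul_le_mul_of_nonneg_right (pow_le_pow_right₀ hw1 (by norm_num)) (by positivity)) p3
  have hKK : ∀ j : ℕ, j + 3 ≤ 12 → 10 ^ 18 * K ^ j ≤ K ^ 12 := by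
    intro j hj
    calc 10 ^ 18 * K ^ j = ((10 : ℝ) ^ 6) ^ 3 * K ^ j := by norm_num
      _ ≤ K ^ 3 * K ^ j := mul_le_mul_of_nonneg_right (pow_le_pow_left₀ (by norm_num) hK6 3) (by positivity)
      _ = K ^ (j + 3) := by ring
      _ ≤ K ^ 12 := pow_le_pow_right₀ hK1 hj
  have hy4 : y ^ 4 ≤ x := by
    rw [← hwy]
    calc (w ^ 2) ^ 4 = w ^ 8 * 1 := by ring
      _ ≤ w ^ 8 * K ^ 12 := mul_le_mul_of_nonneg_left hK12 (by positivity)
      _ ≤ x := q1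
  have hy2K : 10 ^ 18 * (y ^ 2 * K ^ 3) ≤ x := by
    rw [← hwy]
    calc 10 ^ 18 * ((w ^ 2) ^ 2 * K ^ 3) = w ^ 4 * (10 ^ 18 * K ^ 3) := by ring
      _ ≤ w ^ 4 * K ^ 12 := mul_le_mul_of_nonneg_left (hKK 3 (by norm_num)) (by positivity)
      _ ≤ x := q3
  have hy2 : 18 * y ^ 2 ≤ x := by
    have h1 : y ^ 2 * 1 ≤ y ^ 2 * K ^ 3 := mul_le_mul_of_nonneg_left (one_le_pow₀ hK1) (by positivity)
    linarith [(by positivity : 0 ≤ y ^ 2 * K ^ 3)]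
  have hyy : y ≤ y ^ 2 := by
    rw [sq]
    exact le_mul_of_one_le_left hy0.le hy1
  have h2R : 2 * R ≤ X := by
    have h1 : 2 * (R : ℝ) ≤ X := by rw [← hy, ← hx]; linarith [(by positivity : 0 ≤ y ^ 2)]
    exact_mod_cast h1
  have h2R2 : 2 * R ^ 2 ≤ X := by
    have h1 : 2 * (R : ℝ) ^ 2 ≤ X := by rw [← hy, ← hx]; linarith [(by positivity : 0 ≤ y ^ 2)]
    exact_mod_cast h1
  have hH2X : H ^ 2 ≤ X := by
    have h1 : (H : ℝ) ^ 2 ≤ X := by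
      rw [← hx]
      calc (H : ℝ) ^ 2 ≤ (3 * y) ^ 2 := pow_le_pow_left₀ (Nat.cast_nonneg _) hHy 2
        _ = 9 * y ^ 2 := by ring
        _ ≤ x := by linarith [(by positivity : 0 ≤ y ^ 2)]
    exact_mod_cast h1
  have hH1n : 1 ≤ H := by omega
  have hHX : H ≤ X := by
    calc H = H ^ 1 := (pow_one H).symm
      _ ≤ H ^ 2 := Nat.pow_le_pow_right hH1n (by norm_num)
      _ ≤ X := hH2X
  -- `u`
  obtain ⟨K0, hK0n⟩ : ∃ K0 : ℕ, K0 = ⌈K⌉₊ := ⟨_, rfl⟩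
  have hK01 : K ≤ K0 := by rw [hK0n]; exact Nat.le_ceil _
  have hK02 : (K0 : ℝ) ≤ 2 * K := by
    have := Nat.ceil_lt_add_one hK0.le
    rw [← hK0n] at this
    linarith
  obtain ⟨u, hu⟩ : ∃ u : ℕ, u = R * K0 ^ 8 := ⟨_, rfl⟩
  have hK0p : 1 ≤ K0 := by
    have : (1 : ℝ) ≤ K0 := by linarith
    exact_mod_cast this
  have hu1 : 1 ≤ u := by
    rw [hu]
    exact Nat.one_le_iff_ne_zero.mpr (by positivity)
  have hur1 : y * K ^ 8 ≤ (u : ℝ) := by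
    rw [hu, hy]
    push_cast
    exact mul_le_mul_of_nonneg_left (pow_le_pow_left₀ hK0.le hK01 8) (Nat.cast_nonneg _)
  have hur2 : (u : ℝ) ≤ 256 * (y * K ^ 8) := by
    rw [hu, hy]
    push_cast
    calc (R : ℝ) * (K0 : ℝ) ^ 8 ≤ R * (2 * K) ^ 8 :=
          mul_le_mul_of_nonneg_left (pow_le_pow_left₀ (Nat.cast_nonneg _) hK02 8) (Nat.cast_nonneg _)
      _ = _ := by ring
  have hu3 : u ^ 3 ≤ X := by
    have h1 : (u : ℝ) ^ 3 ≤ X := by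
      rw [← hx]
      calc (u : ℝ) ^ 3 ≤ (256 * (y * K ^ 8)) ^ 3 := pow_le_pow_left₀ (Nat.cast_nonneg _) hur2 3
        _ = 2 ^ 24 * (w ^ 6 * K ^ 24) := by rw [← hwy]; ring
        _ ≤ x := p4
    exact_mod_cast h1
  have hsu : w * K ^ 4 ≤ √(u : ℝ) := by
    apply Real.le_sqrt_of_sq_le
    calc (w * K ^ 4) ^ 2 = y * K ^ 8 := by rw [← hwy]; ring
      _ ≤ (u : ℝ) := hur1
  have hsu0 : 0 < w * K ^ 4 := by positivity
  have hsx0 : 0 < √x := Real.sqrt_pos.mpr hx0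
  have hsx2 : √x * √x = x := Real.mul_self_sqrt hx0.le
  -- the sum of `SC`
  have hlog2X : 1 + Real.log ((2 * X : ℕ) : ℝ) ≤ Lg := by
    rw [hLg]
    have : Real.log ((2 * X : ℕ) : ℝ) ≤ Real.log (3 * X) := by
      apply Real.log_le_log (by push_cast; linarith)
      push_cast; linarith
    linarith
  have hlog2X0 : 0 ≤ 1 + Real.log ((2 * X : ℕ) : ℝ) := by
    have := Real.log_natCast_nonneg (2 * X)
    linarith
  have hSC : ∑ q ∈ QQ R, SC X q ≤ w * x / K ^ 3 := by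
    have h1 := hth (2 * R) u X (2 * X) hu1 hu3 (by omega) (by omega)
    refine gu_n1 C1 C2 x y w K Lg u _ _ hC1 hC2 hx0 hwy hw1 hK1 hw4K p1 q2 hsu hur2 (Nat.cast_nonneg _) hlog2X0 hlog2X
      hLg1' hLgK ((mv_PC X R).trans (h1.trans (le_of_eq ?_)))
    push_cast
    rw [← hx, ← hy]
  -- number of primes, first order term
  obtain ⟨N, hN⟩ : ∃ N : ℝ, N = ((QQ R).card : ℝ) := ⟨_, rfl⟩
  obtain ⟨Θ, hΘ⟩ : ∃ Θ : ℝ, Θ = ∑ m ∈ Ioc X (2 * X), pl m := ⟨_, rfl⟩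
  obtain ⟨M, hMq⟩ : ∃ M : ℝ, M = ∑ q ∈ QQ R, cq H q / ((q : ℝ) - 1) := ⟨_, rfl⟩
  obtain ⟨T, hT⟩ : ∃ T : ℝ, T = ∑ i ∈ Ioc X (2 * X), G (QQ R) H i * ET i H := ⟨_, rfl⟩
  have hTh := hR1p X g3
  rw [← hΘ, ← hx] at hTh
  have hQl := gu_Q X R y K hR1n h2R (by rw [← hy]; linarith) hK1 hlog (hR1p R hRR1)
  have hMl := hgM R H hRR0 hRH1 hRH2
  rw [← hMq] at hMl
  have hT1 := gu_T X H R y K Θ M T (w * x / K ^ 3) hH1n hHX (by rw [← hy]) h2R hy0 hK1 hlog hΘ hMq hT hSC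
  have hs2y : √(2 * y) ≤ 2 * w := by
    rw [Real.sqrt_le_left (by positivity), mul_pow, hwy]
    linarith
  have hTM : |T + M * Θ| ≤ 2 * (y * x) / K ^ 2 + 20 * H * y ^ 2 * K := by
    have h1 : √(2 * y) * (w * x / K ^ 3) ≤ 2 * (y * x) / K ^ 2 := by
      calc √(2 * y) * (w * x / K ^ 3) ≤ (2 * w) * (w * x / K ^ 3) := mul_le_mul_of_nonneg_right hs2y (by positivity)
        _ = 2 * (y * x) / K ^ 3 := by rw [← hwy]; ring
        _ ≤ 2 * (y * x) / K ^ 2 :=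
            div_le_div_of_nonneg_left (by positivity) (by positivity) (pow_le_pow_right₀ hK1 (by norm_num))
    linarith
  have hE2 : 20 * H * y ^ 2 * K ≤ (y * x) / K ^ 2 / 1000 := by
    rw [le_div_iff₀ (by norm_num), le_div_iff₀ (by positivity)]
    calc 20 * (H : ℝ) * y ^ 2 * K * 1000 * K ^ 2 ≤ 20 * (3 * y) * y ^ 2 * K * 1000 * K ^ 2 := by
          have h3 : 0 ≤ 20 * y ^ 2 * K * 1000 * K ^ 2 := by positivity
          have h4 := mul_le_mul_of_nonneg_right hHy h3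
          linarith
      _ = y * (60000 * (y ^ 2 * K ^ 3)) := by ring
      _ ≤ y * x := by
          refine mul_le_mul_of_nonneg_left ?_ hy0.le
          linarith [(by positivity : 0 ≤ y ^ 2 * K ^ 3)]
  have hTl := gu_b2 x y K _ M Θ T _ hx0 hy0 hK6 hQl hMl hTh hTM hE2
  -- second moment
  have hG2 := gu_g2 X H R x y (by omega) hR1n hx (by rw [← hy]) hy4 hx0
  -- second order term
  have hP3 : P2 X H R * K ^ 3 ≤ x * (y * w) := by
    have hp := gu_p2 X H R Lg hLg hR1n h2R hH1n hHX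
    have hmv := hmv2 X R u hu1 hu3 hR1n h2R2
    rw [← hLg] at hmv
    rw [← hx, ← hy] at hp hmv
    refine gu_n2 C1 C2 x y w K Lg u H _ _ _ hC1 hC2 hx1 hwy hw1 hK6 hw4K p1 p3 q2 hsu hur2 hLg1' hKL hLgK
      (Nat.cast_nonneg _) hHy (sum_nonneg fun q _ => ?_) (sum_nonneg fun q _ => sum_nonneg fun r _ => ?_) hSC hmv hp
    · unfold SC
      exact sum_nonneg fun _ _ => norm_nonneg _
    · split_ifs
      · unfold SD
        exact sum_nonneg fun _ _ => sum_nonneg fun _ _ => norm_nonneg _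
      · exact le_rfl
  -- logarithmic weights
  obtain ⟨S, hS⟩ : ∃ S : ℝ, S = ∑ i ∈ Ioc X (2 * X), |ET i H| := ⟨_, rfl⟩
  obtain ⟨E, hE⟩ : ∃ E : ℝ, E = ∑ n ∈ Ioc X (2 * X), |EI n H| := ⟨_, rfl⟩
  have hSE := gu_d X H K S E hX3 hH2X hlog hS hE
  have hE0 : 0 ≤ E := by rw [hE]; exact Finset.sum_nonneg fun _ _ => abs_nonneg _
  obtain ⟨L, hLL⟩ : ∃ L : ℝ, L = Real.log (3 * X) := ⟨_, rfl⟩
  have hL0 : 0 ≤ L := by
    rw [hLL]
    have := gu_log X (by omega)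
    linarith
  have hLK : L ≤ K := by rw [hLL]; exact hlog
  have hLLg : L ≤ Lg := by rw [hLL, hLg]; linarith
  obtain ⟨W, hWb, hkap2⟩ := gu_kap X H R s κ L K Lg x y w T S Ex hs hκ0 hX3 hH1n hHX hH2X hR1n hx hy hy4 hLL hL0 hLLg hK hKL
    hLg1' hw0 hwy hHy hy1 hEx hκ hT hS
  rw [← hE]
  rw [← hx] at hSE ⊢
  have hfin := gu_f2 x y w K _ T κ (κ * L + 2) L _ S E _ W hx0 hy0 hw0 hwy hK6 hQl hTl hκ0 rfl hLK hL0
    hG2 hSE hE0 hP3 ((pow_le_pow_right₀ hK1 (by norm_num)).trans hwK) hWb hkap2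
  have hsH : √(H : ℝ) ≤ 2 * w := by
    rw [Real.sqrt_le_left (by positivity), mul_pow, hwy]
    linarith
  have hV0 : 0 ≤ κ * x + E := by positivity
  rw [div_le_iff₀ (by positivity)] at hfin
  calc √(H : ℝ) * x ≤ 2 * w * x := mul_le_mul_of_nonneg_right hsH hx0.le
    _ ≤ 2 * ((κ * x + E) * K ^ 3) := by linarith
    _ ≤ K * ((κ * x + E) * K ^ 3) := mul_le_mul_of_nonneg_right (by linarith) (by positivity)
    _ = Lg ^ 32 * (κ * x + E) := by rw [hK]; ring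

end Pool.Agent.H67.GU
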