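import Mathlib

/-!
# [H67 GU NUM2] size estimates for `GU/Core2.lean`

`R ~ y`, `w = √y`, `v = (1 + log 3X)^(1/4)`, `u ~ y v^80`. All conditions follow from `v^30 ≤ w` and `w^5 v^100 ≤ √x`.
-/

set_option autoImplicit false

namespace Pool.Agent.H67.GU

theorem gu2_sz (x w v : ℝ) (hx : 0 < x) (hv : 1 ≤ v) (hw : 1 ≤ w) (p1 : w ^ 5 * v ^ 100 ≤ √x) (i j : ℕ) (hi : i ≤ 10)
    (hj : j ≤ 200) : w ^ i * v ^ j ≤ x := by
  have h1 : (w ^ 5 * v ^ 100) ^ 2 ≤ (√x) ^ 2 := pow_le_pow_left₀ (by positivity) p1 2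
  rw [Real.sq_sqrt hx.le] at h1
  calc w ^ i * v ^ j ≤ w ^ 10 * v ^ 200 :=
        mul_le_mul (pow_le_pow_right₀ hw hi) (pow_le_pow_right₀ hv hj) (by positivity) (by positivity)
    _ = (w ^ 5 * v ^ 100) ^ 2 := by ring
    _ ≤ x := h1

theorem gu2_sr (x w v : ℝ) (hv : 1 ≤ v) (hw : 1 ≤ w) (p1 : w ^ 5 * v ^ 100 ≤ √x) (i j : ℕ) (hi : i ≤ 5)
    (hj : j ≤ 100) : w ^ i * v ^ j ≤ √x :=
  (mul_le_mul (pow_le_pow_right₀ hw hi) (pow_le_pow_right₀ hv hj) (by positivity) (by positivity)).trans p1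

/-- the sum over the primitive characters -/
theorem gu2_n1 (C1 x y w v u l2 S : ℝ) (hC1 : 0 < C1) (hx0 : 0 < x) (hwy : w ^ 2 = y) (hv1 : 1 ≤ v)
    (hvw : v ^ 30 ≤ w) (p1 : w ^ 5 * v ^ 100 ≤ √x) (hsu : w * v ^ 40 ≤ √u)
    (hur2 : u ≤ 2 ^ 20 * (y * v ^ 80)) (hu0 : 0 ≤ u) (hl20 : 0 ≤ l2) (hl2 : l2 ≤ v ^ 4) (hC : C1 * 2 ^ 24 ≤ v)
    (hS : S ≤ C1 * l2 ^ 5 * (2 * x + 2 * y * (2 * x) / √u + (2 * y) ^ 2 * √(2 * x) + (2 * y) ^ 2 * √(2 * y) * u)) :
    S ≤ w * x / v ^ 6 := by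
  have hv0 : 0 < v := by linarith
  have hw1 : 1 ≤ w := (one_le_pow₀ hv1).trans hvw
  have hw0 : 0 < w := by linarith
  have hy0 : 0 < y := by rw [← hwy]; positivity
  have hsu0 : 0 < w * v ^ 40 := by positivity
  have hsx0 : 0 < √x := Real.sqrt_pos.mpr hx0
  have hsx2 : √x * √x = x := Real.mul_self_sqrt hx0.le
  have hs2X : √(2 * x) ≤ 2 * √x := by
    rw [Real.sqrt_le_left (by positivity), mul_pow, Real.sq_sqrt hx0.le]
    linarith
  have hs2R : √(2 * y) ≤ 2 * w := by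
    rw [Real.sqrt_le_left (by positivity), mul_pow, hwy]
    linarith
  obtain ⟨a, ha⟩ : ∃ a : ℝ, a = w * x / v ^ 27 := ⟨_, rfl⟩
  have ha0 : 0 < a := by rw [ha]; positivity
  have hxa : x ≤ a := by
    rw [ha, le_div_iff₀ (by positivity)]
    calc x * v ^ 27 ≤ x * w := mul_le_mul_of_nonneg_left ((pow_le_pow_right₀ hv1 (by norm_num)).trans hvw) hx0.le
      _ = w * x := by ring
  have t2 : 2 * y * (2 * x) / √u ≤ 4 * a := by
    calc 2 * y * (2 * x) / √u ≤ (2 * y) * (2 * x) / (w * v ^ 40) :=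
          div_le_div_of_nonneg_left (by positivity) hsu0 hsu
      _ = 4 * (w * x / v ^ 40) := by
          rw [← hwy]
          field_simp
          ring
      _ ≤ 4 * a := by
          rw [ha]
          refine mul_le_mul_of_nonneg_left (div_le_div_of_nonneg_left (by positivity) (by positivity) ?_) (by norm_num)
          exact pow_le_pow_right₀ hv1 (by norm_num)
  have t3 : (2 * y) ^ 2 * √(2 * x) ≤ 8 * a := by
    calc (2 * y) ^ 2 * √(2 * x) ≤ (2 * y) ^ 2 * (2 * √x) := mul_le_mul_of_nonneg_left hs2X (by positivity)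
      _ = 8 * (w ^ 4 * √x) := by rw [← hwy]; ring
      _ ≤ 8 * a := by
          refine mul_le_mul_of_nonneg_left ?_ (by norm_num)
          rw [ha, le_div_iff₀ (by positivity)]
          have h2 := gu2_sr x w v hv1 hw1 p1 3 27 (by norm_num) (by norm_num)
          calc w ^ 4 * √x * v ^ 27 = w * √x * (w ^ 3 * v ^ 27) := by ring
            _ ≤ w * √x * √x := mul_le_mul_of_nonneg_left h2 (by positivity)
            _ = w * x := by rw [mul_assoc, hsx2]
  have t4 : (2 * y) ^ 2 * √(2 * y) * u ≤ 2 ^ 23 * a := by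
    calc (2 * y) ^ 2 * √(2 * y) * u ≤ (2 * y) ^ 2 * (2 * w) * (2 ^ 20 * (y * v ^ 80)) := by
          refine mul_le_mul (mul_le_mul_of_nonneg_left hs2R (by positivity)) hur2 hu0 (by positivity)
      _ = 2 ^ 23 * (w ^ 7 * v ^ 80) := by rw [← hwy]; ring
      _ ≤ 2 ^ 23 * a := by
          refine mul_le_mul_of_nonneg_left ?_ (by norm_num)
          rw [ha, le_div_iff₀ (by positivity)]
          have h2 := gu2_sz x w v hx0 hv1 hw1 p1 6 107 (by norm_num) (by norm_num)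
          calc w ^ 7 * v ^ 80 * v ^ 27 = w * (w ^ 6 * v ^ 107) := by ring
            _ ≤ w * x := mul_le_mul_of_nonneg_left h2 hw0.le
  have hsum : 2 * x + 2 * y * (2 * x) / √u + (2 * y) ^ 2 * √(2 * x) + (2 * y) ^ 2 * √(2 * y) * u ≤ 2 ^ 24 * a := by
    linarith
  have hpow : l2 ^ 5 ≤ v ^ 20 := by
    calc l2 ^ 5 ≤ (v ^ 4) ^ 5 := pow_le_pow_left₀ hl20 hl2 5
      _ = v ^ 20 := by ring
  refine hS.trans ?_
  calc C1 * l2 ^ 5 * _ ≤ C1 * v ^ 20 * (2 ^ 24 * a) := by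
        refine mul_le_mul (mul_le_mul_of_nonneg_left hpow hC1.le) hsum (by positivity) (by positivity)
    _ = (C1 * 2 ^ 24) * (v ^ 20 * a) := by ring
    _ ≤ v * (v ^ 20 * a) := mul_le_mul_of_nonneg_right hC (by positivity)
    _ = w * x / v ^ 6 := by
        rw [ha]
        field_simp

/-- the second order term -/
theorem gu2_n2 (C2 x y w v u h P S D : ℝ) (hC2 : 0 < C2) (hx1 : 1 ≤ x) (hwy : w ^ 2 = y) (hv60 : 450 ≤ v)
    (hvw : v ^ 30 ≤ w) (p1 : w ^ 5 * v ^ 100 ≤ √x)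
    (hsu : w * v ^ 40 ≤ √u) (hur2 : u ≤ 2 ^ 20 * (y * v ^ 80))
    (hC : 30 * 2 ^ 21 * C2 ≤ v) (hh0 : 0 ≤ h) (hHy : h ≤ 3 * y) (hS0 : 0 ≤ S) (hD0 : 0 ≤ D)
    (hSC : S ≤ w * x / v ^ 6) (hmv : D ≤ C2 * (v ^ 4) ^ 5 * (x + y ^ 2 * x / √u + y ^ 4 * √x + y ^ 5 * u))
    (hp : P ≤ h * x * v ^ 4 + 2 * h * (√(2 * y) * v ^ 4) / y * S + 2 * h * (v ^ 4) ^ 2 / y * D +
      10 * h ^ 2 * y ^ 2 * v ^ 4 + 4 * h * y ^ 4) :
    P * v ^ 8 ≤ x * (y * w) := by
  have hx0 : 0 < x := by linarith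
  have hv1 : 1 ≤ v := by linarith
  have hv0 : 0 < v := by linarith
  have hw1 : 1 ≤ w := (one_le_pow₀ hv1).trans hvw
  have hw0 : 0 < w := by linarith
  have hy1 : 1 ≤ y := by
    rw [← hwy]
    exact one_le_pow₀ hw1
  have hy0 : 0 < y := by linarith
  have hsu0 : 0 < w * v ^ 40 := by positivity
  have hsx0 : 0 < √x := Real.sqrt_pos.mpr hx0
  have hsx2 : √x * √x = x := Real.mul_self_sqrt hx0.le
  have hs2y : √(2 * y) ≤ 2 * w := by
    rw [Real.sqrt_le_left (by positivity), mul_pow, hwy]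
    linarith
  obtain ⟨b, hb⟩ : ∃ b : ℝ, b = y * w * x / v ^ 37 := ⟨_, rfl⟩
  have hb0 : 0 < b := by rw [hb]; positivity
  have s1 : x ≤ b := by
    rw [hb, le_div_iff₀ (by positivity)]
    have h1 : v ^ 37 ≤ y * w := by
      calc v ^ 37 ≤ v ^ 30 * v ^ 30 := by
            rw [← pow_add]
            exact pow_le_pow_right₀ hv1 (by norm_num)
        _ ≤ w * w := mul_le_mul hvw hvw (by positivity) hw0.le
        _ = w ^ 2 * 1 := by ring
        _ ≤ w ^ 2 * w := mul_le_mul_of_nonneg_left hw1 (by positivity)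
        _ = y * w := by rw [hwy]
    calc x * v ^ 37 ≤ x * (y * w) := mul_le_mul_of_nonneg_left h1 hx0.le
      _ = y * w * x := by ring
  have s2 : y ^ 2 * x / √u ≤ b := by
    calc y ^ 2 * x / √u ≤ y ^ 2 * x / (w * v ^ 40) :=
          div_le_div_of_nonneg_left (by positivity) hsu0 hsu
      _ = y * w * x / v ^ 40 := by
          rw [← hwy]
          field_simp
      _ ≤ b := by
          rw [hb]
          exact div_le_div_of_nonneg_left (by positivity) (by positivity) (pow_le_pow_right₀ hv1 (by norm_num))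
  have s3 : y ^ 4 * √x ≤ b := by
    rw [hb, le_div_iff₀ (by positivity)]
    have h2 := gu2_sr x w v hv1 hw1 p1 5 37 (by norm_num) (by norm_num)
    calc y ^ 4 * √x * v ^ 37 = y * w * √x * (w ^ 5 * v ^ 37) := by rw [← hwy]; ring
      _ ≤ y * w * √x * √x := mul_le_mul_of_nonneg_left h2 (by positivity)
      _ = y * w * x := by rw [mul_assoc, hsx2]
  have s4 : y ^ 5 * u ≤ 2 ^ 20 * b := by
    calc y ^ 5 * u ≤ y ^ 5 * (2 ^ 20 * (y * v ^ 80)) := mul_le_mul_of_nonneg_left hur2 (by positivity)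
      _ = 2 ^ 20 * (y ^ 6 * v ^ 80) := by ring
      _ ≤ 2 ^ 20 * b := by
          refine mul_le_mul_of_nonneg_left ?_ (by norm_num)
          rw [hb, le_div_iff₀ (by positivity)]
          have h2 := gu2_sz x w v hx0 hv1 hw1 p1 9 117 (by norm_num) (by norm_num)
          calc y ^ 6 * v ^ 80 * v ^ 37 = y * w * (w ^ 9 * v ^ 117) := by rw [← hwy]; ring
            _ ≤ y * w * x := mul_le_mul_of_nonneg_left h2 (by positivity)
  have hD1 : D ≤ C2 * v ^ 20 * (2 ^ 21 * b) := by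
    have e : C2 * (v ^ 4) ^ 5 = C2 * v ^ 20 := by ring
    rw [e] at hmv
    refine hmv.trans (mul_le_mul_of_nonneg_left ?_ (by positivity))
    linarith
  obtain ⟨V, hV⟩ : ∃ V : ℝ, V = x * (y * w) := ⟨_, rfl⟩
  have hV0 : 0 < V := by rw [hV]; positivity
  rw [← hV]
  have hvv : ∀ j : ℕ, j + 1 ≤ 30 → 450 * v ^ j ≤ w := by
    intro j hj
    calc 450 * v ^ j ≤ v * v ^ j := mul_le_mul_of_nonneg_right hv60 (by positivity)
      _ = v ^ (j + 1) := by ring
      _ ≤ v ^ 30 := pow_le_pow_right₀ hv1 hj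
      _ ≤ w := hvw
  have r1 : h * x * v ^ 4 * v ^ 8 ≤ V / 5 := by
    calc h * x * v ^ 4 * v ^ 8 ≤ 3 * y * x * v ^ 4 * v ^ 8 := by
          have h3 : 0 ≤ x * v ^ 4 * v ^ 8 := by positivity
          have h4 := mul_le_mul_of_nonneg_right hHy h3
          linarith
      _ = y * x * (15 * v ^ 12) / 5 := by ring
      _ ≤ y * x * w / 5 := by
          refine div_le_div_of_nonneg_right (mul_le_mul_of_nonneg_left ?_ (by positivity)) (by norm_num)
          have h3 := hvv 12 (by norm_num)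
          have h4 : 0 ≤ v ^ 12 := by positivity
          linarith
      _ = V / 5 := by rw [hV]; ring
  have hHR : 2 * h / y ≤ 6 := by
    rw [div_le_iff₀ hy0]
    linarith
  have r2 : 2 * h * (√(2 * y) * v ^ 4) / y * S * v ^ 8 ≤ V / 5 := by
    calc 2 * h * (√(2 * y) * v ^ 4) / y * S * v ^ 8
        = (2 * h / y) * √(2 * y) * v ^ 4 * S * v ^ 8 := by ring
      _ ≤ 6 * (2 * w) * v ^ 4 * (w * x / v ^ 6) * v ^ 8 := by
          refine mul_le_mul_of_nonneg_right ?_ (by positivity)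
          refine mul_le_mul (mul_le_mul_of_nonneg_right (mul_le_mul hHR hs2y (Real.sqrt_nonneg _) (by norm_num)) (by positivity))
            hSC hS0 (by positivity)
      _ = y * x * (60 * v ^ 6) / 5 := by
          rw [← hwy]
          field_simp
          ring
      _ ≤ y * x * w / 5 := by
          refine div_le_div_of_nonneg_right (mul_le_mul_of_nonneg_left ?_ (by positivity)) (by norm_num)
          have h3 := hvv 6 (by norm_num)
          have h4 : 0 ≤ v ^ 6 := by positivity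
          linarith
      _ = V / 5 := by rw [hV]; ring
  have r3 : 2 * h * (v ^ 4) ^ 2 / y * D * v ^ 8 ≤ V / 5 := by
    calc 2 * h * (v ^ 4) ^ 2 / y * D * v ^ 8 = (2 * h / y) * v ^ 8 * D * v ^ 8 := by ring
      _ ≤ 6 * v ^ 8 * (C2 * v ^ 20 * (2 ^ 21 * b)) * v ^ 8 := by
          refine mul_le_mul_of_nonneg_right ?_ (by positivity)
          exact mul_le_mul (mul_le_mul_of_nonneg_right hHR (by positivity)) hD1 hD0 (by positivity)
      _ = (30 * 2 ^ 21 * C2) * (b * v ^ 36) / 5 := by ring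
      _ ≤ v * (b * v ^ 36) / 5 :=
          div_le_div_of_nonneg_right (mul_le_mul_of_nonneg_right hC (by positivity)) (by norm_num)
      _ = V / 5 := by
          rw [hV, hb]
          field_simp
  have r4 : 10 * h ^ 2 * y ^ 2 * v ^ 4 * v ^ 8 ≤ V / 5 := by
    have h1 : h ^ 2 ≤ 9 * y ^ 2 := by
      calc h ^ 2 ≤ (3 * y) ^ 2 := pow_le_pow_left₀ hh0 hHy 2
        _ = 9 * y ^ 2 := by ring
    have h5 : w ^ 5 * (450 * v ^ 12) ≤ x := by
      calc w ^ 5 * (450 * v ^ 12) ≤ w ^ 5 * (v * v ^ 12) :=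
            mul_le_mul_of_nonneg_left (mul_le_mul_of_nonneg_right hv60 (by positivity)) (by positivity)
        _ = w ^ 5 * v ^ 13 := by ring
        _ ≤ x := gu2_sz x w v hx0 hv1 hw1 p1 5 13 (by norm_num) (by norm_num)
    calc 10 * h ^ 2 * y ^ 2 * v ^ 4 * v ^ 8 ≤ 10 * (9 * y ^ 2) * y ^ 2 * v ^ 4 * v ^ 8 := by
          have h3 : 0 ≤ 10 * (y ^ 2 * v ^ 4 * v ^ 8) := by positivity
          have h4 := mul_le_mul_of_nonneg_right h1 h3
          linarith
      _ = y * w * (w ^ 5 * (450 * v ^ 12)) / 5 := by rw [← hwy]; ring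
      _ ≤ y * w * x / 5 :=
          div_le_div_of_nonneg_right (mul_le_mul_of_nonneg_left h5 (by positivity)) (by norm_num)
      _ = V / 5 := by rw [hV]; ring
  have r5 : 4 * h * y ^ 4 * v ^ 8 ≤ V / 5 := by
    have h5 : w ^ 7 * (60 * v ^ 8) ≤ x := by
      calc w ^ 7 * (60 * v ^ 8) ≤ w ^ 7 * (v * v ^ 8) :=
            mul_le_mul_of_nonneg_left (mul_le_mul_of_nonneg_right (by linarith) (by positivity)) (by positivity)
        _ = w ^ 7 * v ^ 9 := by ring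
        _ ≤ x := gu2_sz x w v hx0 hv1 hw1 p1 7 9 (by norm_num) (by norm_num)
    calc 4 * h * y ^ 4 * v ^ 8 ≤ 4 * (3 * y) * y ^ 4 * v ^ 8 := by
          have h3 : 0 ≤ 4 * (y ^ 4 * v ^ 8) := by positivity
          have h4 := mul_le_mul_of_nonneg_right hHy h3
          linarith
      _ = y * w * (w ^ 7 * (60 * v ^ 8)) / 5 := by rw [← hwy]; ring
      _ ≤ y * w * x / 5 :=
          div_le_div_of_nonneg_right (mul_le_mul_of_nonneg_left h5 (by positivity)) (by norm_num)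
      _ = V / 5 := by rw [hV]; ring
  have hp' := mul_le_mul_of_nonneg_right hp (by positivity : 0 ≤ v ^ 8)
  refine hp'.trans ?_
  have e : (h * x * v ^ 4 + 2 * h * (√(2 * y) * v ^ 4) / y * S + 2 * h * (v ^ 4) ^ 2 / y * D +
      10 * h ^ 2 * y ^ 2 * v ^ 4 + 4 * h * y ^ 4) * v ^ 8 =
      h * x * v ^ 4 * v ^ 8 + 2 * h * (√(2 * y) * v ^ 4) / y * S * v ^ 8 +
        2 * h * (v ^ 4) ^ 2 / y * D * v ^ 8 + 10 * h ^ 2 * y ^ 2 * v ^ 4 * v ^ 8 + 4 * h * y ^ 4 * v ^ 8 := by ring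
  rw [e]
  linarith

/-- lower bound of the first order term -/
theorem gu2_b (x y v N M Θ T E2 : ℝ) (hx0 : 0 < x) (hy0 : 0 < y) (hv : 36000 ≤ v)
    (hQ : y / (4 * v ^ 4) ≤ N) (hM : N / 250 ≤ M) (hΘ : (1 - 1 / 2) * x ≤ Θ)
    (hT : |T + M * Θ| ≤ 2 * (y * x) / v ^ 6 + E2) (hE2 : E2 ≤ (y * x) / v ^ 6) :
    N * x / 600 ≤ -T := by
  have hv0 : 0 < v := by linarith
  have hv1 : 1 ≤ v := by linarith
  have hN0 : 0 < N := lt_of_lt_of_le (by positivity) hQ
  have h2 : (N / 250) * (x / 2) ≤ M * Θ := by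
    refine mul_le_mul hM (by linarith) (by positivity) (le_trans (by positivity) hM)
  rw [div_le_iff₀ (by positivity)] at hQ
  have h3 : y * x / v ^ 6 ≤ N * x / 9000 := by
    rw [div_le_iff₀ (by positivity)]
    have h4 : y * x ≤ N * (4 * v ^ 4) * x := mul_le_mul_of_nonneg_right hQ hx0.le
    have h5 : N * x * v ^ 4 * 36000 ≤ N * x * v ^ 4 * (v * v) := by
      refine mul_le_mul_of_nonneg_left ?_ (by positivity)
      exact hv.trans (le_mul_of_one_le_left hv0.le hv1)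
    have h6 : N * x / 9000 * v ^ 6 * 36000 = 4 * (N * x * v ^ 4 * (v * v)) := by ring
    linarith
  have h8 : 2 * (y * x) / v ^ 6 = 2 * (y * x / v ^ 6) := by ring
  rw [h8] at hT
  have h9 := le_abs_self (T + M * Θ)
  have h10 : (N / 250) * (x / 2) = N * x / 500 := by ring
  have h11 : 0 < N * x := by positivity
  have h12 := (abs_le.mp hT).1
  have h13 := (abs_le.mp hT).2
  linarith

/-- the conclusion -/
theorem gu2_f (x y w v N T κ κ' L S2 SE E P W : ℝ) (hx0 : 0 < x) (hy0 : 0 < y) (hw0 : 0 < w)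
    (hwy : w ^ 2 = y) (hv : 1000000 ≤ v) (hvw : v ^ 30 ≤ w) (hQ : y / (4 * v ^ 4) ≤ N) (hT : N * x / 600 ≤ -T)
    (hκ0 : 0 ≤ κ) (hκ' : κ' = κ * L + 2) (hL : L ≤ v ^ 4) (hL0 : 0 ≤ L) (hS2 : S2 ≤ 42 * x * N)
    (hSE : SE ≤ v ^ 4 * E + 2 * x) (hE0 : 0 ≤ E) (hP : P * v ^ 8 ≤ x * (y * w))
    (hW : W ≤ N * (344 * w * x / v ^ 3))
    (h : 2 * Real.sqrt N * (-T) ≤ κ' * (2 * N * x + 2 * S2) + W + 2 * N * SE + 2 * P) :
    w * x ≤ 103200 * v ^ 6 * (κ * x + E) := by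
  have hv0 : 0 < v := by linarith
  have hv1 : 1 ≤ v := by linarith
  have hN0 : 0 < N := lt_of_lt_of_le (by positivity) hQ
  have hQ2 : y ≤ N * (4 * v ^ 4) := by rwa [div_le_iff₀ (by positivity)] at hQ
  -- lower bound of the left side
  have hsq : w / (2 * v ^ 2) ≤ Real.sqrt N := by
    apply Real.le_sqrt_of_sq_le
    rw [div_pow, hwy, div_le_iff₀ (by positivity)]
    have h2 : N * (2 * v ^ 2) ^ 2 = N * (4 * v ^ 4) := by ring
    linarith
  have hleft : 2 * (w / (2 * v ^ 2)) * (N * x / 600) ≤ 2 * Real.sqrt N * (-T) := by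
    refine mul_le_mul ?_ hT (by positivity) (by positivity)
    linarith
  -- upper bound of the right side
  have hκK : κ' ≤ κ * v ^ 4 + 2 := by
    rw [hκ']
    have := mul_le_mul_of_nonneg_left hL hκ0
    linarith
  have hκ'0 : 0 ≤ κ' := by rw [hκ']; positivity
  have h1 : κ' * (2 * N * x + 2 * S2) ≤ (κ * v ^ 4 + 2) * (86 * (N * x)) := by
    have h2 : 2 * N * x + 2 * S2 ≤ 86 * (N * x) := by linarith
    have h3 : κ' * (2 * N * x + 2 * S2) ≤ κ' * (86 * (N * x)) := mul_le_mul_of_nonneg_left h2 hκ'0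
    have h4 : κ' * (86 * (N * x)) ≤ (κ * v ^ 4 + 2) * (86 * (N * x)) :=
      mul_le_mul_of_nonneg_right hκK (by positivity)
    linarith
  have h2 : 2 * N * SE ≤ 2 * N * (v ^ 4 * E + 2 * x) := mul_le_mul_of_nonneg_left hSE (by positivity)
  have hP2 : 2 * P ≤ N * (8 * (w * x / v ^ 4)) := by
    have h3 : P ≤ x * (y * w) / v ^ 8 := by
      rw [le_div_iff₀ (by positivity)]
      exact hP
    have h4 : x * (y * w) / v ^ 8 ≤ x * (N * (4 * v ^ 4) * w) / v ^ 8 := by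
      refine div_le_div_of_nonneg_right ?_ (by positivity)
      exact mul_le_mul_of_nonneg_left (mul_le_mul_of_nonneg_right hQ2 hw0.le) hx0.le
    have h5 : x * (N * (4 * v ^ 4) * w) / v ^ 8 = N * (4 * (w * x / v ^ 4)) := by
      field_simp
    linarith
  have h3 : N * (2 * (w / (2 * v ^ 2)) * (x / 600)) ≤ N * ((κ * v ^ 4 + 2) * (86 * x) + 344 * w * x / v ^ 3 +
      2 * (v ^ 4 * E + 2 * x) + 8 * (w * x / v ^ 4)) := by
    have e1 : N * (2 * (w / (2 * v ^ 2)) * (x / 600)) = 2 * (w / (2 * v ^ 2)) * (N * x / 600) := by ring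
    have e2 : N * ((κ * v ^ 4 + 2) * (86 * x) + 344 * w * x / v ^ 3 + 2 * (v ^ 4 * E + 2 * x) + 8 * (w * x / v ^ 4)) =
        (κ * v ^ 4 + 2) * (86 * (N * x)) + N * (344 * w * x / v ^ 3) + 2 * N * (v ^ 4 * E + 2 * x) +
          N * (8 * (w * x / v ^ 4)) := by ring
    rw [e1, e2]
    linarith
  have h4 := le_of_mul_le_mul_left h3 hN0
  obtain ⟨a, ha⟩ : ∃ a : ℝ, a = w * x / v ^ 2 := ⟨_, rfl⟩
  have ha0 : 0 < a := by rw [ha]; positivity
  have e1 : 2 * (w / (2 * v ^ 2)) * (x / 600) = a / 600 := by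
    rw [ha]
    field_simp
  have e2 : 344 * w * x / v ^ 3 = 344 * (a / v) := by
    rw [ha]
    field_simp
  have e3 : w * x / v ^ 4 ≤ a / v := by
    have e4 : w * x / v ^ 4 = a / v ^ 2 := by
      rw [ha]
      field_simp
    rw [e4]
    refine div_le_div_of_nonneg_left ha0.le hv0 ?_
    exact le_self_pow₀ hv1 (by norm_num)
  have e5 : x ≤ a / v := by
    rw [ha, div_div, le_div_iff₀ (by positivity)]
    calc x * (v ^ 2 * v) = x * v ^ 3 := by ring
      _ ≤ x * w := mul_le_mul_of_nonneg_left ((pow_le_pow_right₀ hv1 (by norm_num)).trans hvw) hx0.le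
      _ = w * x := by ring
  have e6 : a / v ≤ a / 1000000 := div_le_div_of_nonneg_left ha0.le (by norm_num) hv
  rw [e1, e2] at h4
  obtain ⟨V, hV⟩ : ∃ V : ℝ, V = κ * x + E := ⟨_, rfl⟩
  have hV0 : 0 ≤ V := by rw [hV]; positivity
  have h5 : a / 1200 ≤ 86 * (v ^ 4 * V) := by
    have h6 : (κ * v ^ 4 + 2) * (86 * x) + 344 * (a / v) + 2 * (v ^ 4 * E + 2 * x) + 8 * (w * x / v ^ 4) =
        86 * (v ^ 4 * V) - 84 * (v ^ 4 * E) + 176 * x + 344 * (a / v) + 8 * (w * x / v ^ 4) := by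
      rw [hV]
      ring
    have h7 : 0 ≤ v ^ 4 * E := by positivity
    rw [h6] at h4
    linarith
  rw [← hV]
  have e7 : w * x = a * v ^ 2 := by
    rw [ha]
    field_simp
  rw [e7]
  calc a * v ^ 2 = (a / 1200) * (1200 * v ^ 2) := by ring
    _ ≤ 86 * (v ^ 4 * V) * (1200 * v ^ 2) := mul_le_mul_of_nonneg_right h5 (by positivity)
    _ = 103200 * v ^ 6 * V := by ring

end Pool.Agent.H67.GU
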