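import Pool.Agent.H67.GU.Evs

/-!
# [H67 GU EVL] both signs for every length `(log X)^101 ≤ H ≤ X^(1/5-ε)`, losses only powers of `log X`

PROOF. `κ = √H/(log X)^40`. If fewer than `X/(H (log X)^50)` integers `n` of the window have `s EI n H ≥ κ`, then `gu` (with `-s`) gives
`√H X ≤ Lg^32 (κ X + ∑_{(X,2X]} |EI|)`, `Lg ≤ 2 log X`, and `sgn` (with `s`) gives `∑_{(X,2X]} |EI| ≤ C (κ W + H P + H √X log X + H² (log X)^5)`,
`W ≤ 3 log X X` the size of the window, `P` the number of the exceptions: a contradiction.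
-/

set_option autoImplicit false

namespace Pool.Agent.H67.GU

open Finset Pool.Agent.H48.WN Pool.Agent.H24.TL

/-- both signs for every length `(log X)^101 ≤ H ≤ X^(1/5-ε)` -/
theorem evl (ε : ℝ) (hε : 0 < ε) : ∃ X0 : ℕ, ∀ X : ℕ, X0 ≤ X → ∀ H : ℕ,
    Real.log X ^ 101 ≤ H → (H : ℝ) ≤ (X : ℝ) ^ (1 / 5 - ε) → ∀ s : ℝ, s = 1 ∨ s = -1 →
    (X : ℝ) / (H * Real.log X ^ 50) ≤
      (((Ioc ⌊(X : ℝ) / Lw X⌋₊ ⌈Lw X * (X : ℝ)⌉₊).filter fun n => √(H : ℝ) / Real.log X ^ 40 ≤ s * EI n H).card : ℝ) := by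
  obtain ⟨X1, hX1⟩ := gu ε hε
  obtain ⟨C, x2, hC, hsgn⟩ := sgn
  obtain ⟨M, hM⟩ : ∃ M : ℝ, M = 100 * (C + 1) + 2 ^ 100 := ⟨_, rfl⟩
  have ev1 : ∀ᶠ X : ℝ in Filter.atTop, M ≤ Real.log X := Real.tendsto_log_atTop.eventually_ge_atTop M
  have ev2 : ∀ᶠ X : ℝ in Filter.atTop, 6 * Real.log X ≤ X := by
    have h := Real.isLittleO_log_id_atTop.bound (c := 1 / 6) (by positivity)
    filter_upwards [h, Filter.eventually_ge_atTop 1] with X hX hX1
    have hl := Real.log_nonneg hX1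
    rw [Real.norm_eq_abs, abs_of_nonneg hl, id, Real.norm_eq_abs, abs_of_nonneg (by linarith : (0 : ℝ) ≤ X)] at hX
    linarith
  have ev3 : ∀ᶠ X : ℝ in Filter.atTop, Real.log X ^ (80 : ℝ) ≤ X ^ (1 / 5 : ℝ) := by
    have h := (isLittleO_log_rpow_rpow_atTop 80 (by norm_num : (0 : ℝ) < 1 / 5)).bound (c := 1) (by positivity)
    filter_upwards [h, Filter.eventually_ge_atTop 1] with X hX hX1
    have hl := Real.log_nonneg hX1
    rw [Real.norm_eq_abs, abs_of_nonneg (by positivity), Real.norm_eq_abs, abs_of_nonneg (by positivity)] at hX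
    linarith
  obtain ⟨x0, hx0⟩ := Filter.eventually_atTop.mp (ev1.and (ev2.and ev3))
  refine ⟨max X1 (max 100 (max ⌈x0⌉₊ ⌈x2⌉₊)), fun X hX H hH1 hH2 s hs => ?_⟩
  have g1 : X1 ≤ X := (le_max_left _ _).trans hX
  have g2 : 100 ≤ X := (le_max_left _ _).trans ((le_max_right _ _).trans hX)
  have g3 : x0 ≤ X := (Nat.le_ceil x0).trans (by
    exact_mod_cast (le_max_left _ _).trans ((le_max_right _ _).trans ((le_max_right _ _).trans hX)))
  have g4 : x2 ≤ X := (Nat.le_ceil x2).trans (by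
    exact_mod_cast (le_max_right _ _).trans ((le_max_right _ _).trans ((le_max_right _ _).trans hX)))
  obtain ⟨k1, k2, k3⟩ := hx0 X g3
  have hX100 : (100 : ℝ) ≤ X := by exact_mod_cast g2
  have hX0 : (0 : ℝ) < X := by linarith
  obtain ⟨l, hl⟩ : ∃ l : ℝ, l = Real.log X := ⟨_, rfl⟩
  obtain ⟨L, hL⟩ : ∃ L : ℝ, L = Lw X := ⟨_, rfl⟩
  obtain ⟨Lg, hLg⟩ : ∃ Lg : ℝ, Lg = 1 + Real.log (3 * X) := ⟨_, rfl⟩
  rw [← hl] at k1 k2 k3 hH1
  rw [← hL, ← hl]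
  have hl2 : (2 : ℝ) ^ 100 ≤ l := by
    have : 0 < 100 * (C + 1) := by positivity
    linarith
  have hl100 : 100 ≤ l := le_trans (by norm_num) hl2
  have hl1 : 1 ≤ l := by linarith
  have hl0 : 0 < l := by linarith
  have hlC : C + 1 ≤ l := by linarith
  have hL3 : 3 ≤ L := by
    rw [hL, Lw, ← hl]
    exact Real.le_sqrt_of_sq_le (by linarith)
  have hLl : L ≤ l := by
    rw [hL, Lw, ← hl, Real.sqrt_le_left hl0.le]
    nlinarith
  have hL0 : 0 < L := by linarith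
  have hLg2 : Lg ≤ 2 * l := by
    have h1 : Real.log (3 * X) = Real.log 3 + l := by
      rw [Real.log_mul (by norm_num) hX0.ne', ← hl]
    have h2 := Real.log_le_sub_one_of_pos (by norm_num : (0 : ℝ) < 3)
    rw [hLg, h1]
    linarith
  have hLg0 : 1 ≤ Lg := by
    rw [hLg]
    have := Real.log_nonneg (by linarith : (1 : ℝ) ≤ 3 * X)
    linarith
  have hLgk : ∀ k : ℕ, k ≤ 100 → Lg ^ k ≤ l ^ (k + 1) := by
    intro k hk
    calc Lg ^ k ≤ (2 * l) ^ k := pow_le_pow_left₀ (by linarith) hLg2 k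
      _ = 2 ^ k * l ^ k := mul_pow _ _ _
      _ ≤ l * l ^ k := by
          refine mul_le_mul_of_nonneg_right ?_ (by positivity)
          exact (pow_le_pow_right₀ (by norm_num) hk).trans hl2
      _ = l ^ (k + 1) := by ring
  -- the size of `H`
  have hHl : l ^ 101 ≤ (H : ℝ) := hH1
  have hH1r : (1 : ℝ) ≤ H := (one_le_pow₀ hl1).trans hHl
  have hH0 : (0 : ℝ) < H := by linarith
  have hHn : 1 ≤ H := by exact_mod_cast hH1r
  have hHgu : Lg ^ 100 ≤ (H : ℝ) := (hLgk 100 le_rfl).trans hHl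
  have hH5 : (H : ℝ) ≤ (X : ℝ) ^ (1 / 5 : ℝ) :=
    hH2.trans (Real.rpow_le_rpow_of_exponent_le (by linarith) (by linarith))
  have hHsq : (H : ℝ) ^ 2 ≤ (X : ℝ) ^ (2 / 5 : ℝ) := by
    calc (H : ℝ) ^ 2 ≤ ((X : ℝ) ^ (1 / 5 : ℝ)) ^ 2 := pow_le_pow_left₀ hH0.le hH5 2
      _ = (X : ℝ) ^ (2 / 5 : ℝ) := by
          rw [← Real.rpow_natCast, ← Real.rpow_mul hX0.le]
          norm_num
  have hH2X : (H : ℝ) ^ 2 ≤ X := by
    refine hHsq.trans ?_
    calc (X : ℝ) ^ (2 / 5 : ℝ) ≤ (X : ℝ) ^ (1 : ℝ) := Real.rpow_le_rpow_of_exponent_le (by linarith) (by norm_num)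
      _ = (X : ℝ) := Real.rpow_one _
  -- the window
  obtain ⟨A, hA⟩ : ∃ A : ℕ, A = ⌊(X : ℝ) / L⌋₊ := ⟨_, rfl⟩
  have hA1 : (A : ℝ) ≤ X / L := by rw [hA]; exact Nat.floor_le (by positivity)
  have hA2 : (X : ℝ) / L < A + 1 := by rw [hA]; exact Nat.lt_floor_add_one _
  have hXL : 6 ≤ (X : ℝ) / L := by
    rw [le_div_iff₀ hL0]
    linarith
  have hA4 : 3 ≤ A := by
    have : (3 : ℝ) ≤ A := by linarith
    exact_mod_cast this
  have hA5 : (A : ℝ) ≤ X := hA1.trans (div_le_self hX0.le (by linarith))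
  obtain ⟨N, hN⟩ : ∃ N : ℕ, N = ⌈L * (X : ℝ)⌉₊ := ⟨_, rfl⟩
  have hN1 : L * X ≤ N := by rw [hN]; exact Nat.le_ceil _
  have hN2 : (N : ℝ) < L * X + 1 := by rw [hN]; exact Nat.ceil_lt_add_one (by positivity)
  have h3X : 3 * (X : ℝ) ≤ L * X := mul_le_mul_of_nonneg_right hL3 hX0.le
  have hN3 : (N : ℝ) ≤ 2 * (l * X) := by
    have := mul_le_mul_of_nonneg_right hLl hX0.le
    linarith
  rw [← hA, ← hN]
  by_contra hcon
  push Not at hcon
  obtain ⟨κ, hκ⟩ : ∃ κ : ℝ, κ = √(H : ℝ) / l ^ 40 := ⟨_, rfl⟩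
  have hκ0 : 0 ≤ κ := by rw [hκ]; positivity
  have hκH : κ * l ^ 40 = √(H : ℝ) := by
    rw [hκ]
    field_simp
  rw [← hκ] at hcon
  obtain ⟨P, hP⟩ : ∃ P : ℝ, P = (((Ioc A N).filter fun n => κ ≤ s * EI n H).card : ℝ) := ⟨_, rfl⟩
  rw [← hP] at hcon
  have hP0 : 0 ≤ P := by rw [hP]; exact Nat.cast_nonneg _
  have hPX : P * (H * l ^ 50) ≤ X := by
    rw [lt_div_iff₀ (by positivity)] at hcon
    exact hcon.le
  have hns : -s = 1 ∨ -s = -1 := by rcases hs with h | h <;> simp [h]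
  -- the exceptions
  have hEx : ((((Ioc X (2 * X)).filter fun n => -s * EI n H < -κ).card : ℕ) : ℝ) ≤ P := by
    rw [hP]
    have : ((Ioc X (2 * X)).filter fun n => -s * EI n H < -κ).card ≤
        ((Ioc A N).filter fun n => κ ≤ s * EI n H).card := by
      refine card_le_card fun n hn => ?_
      rw [mem_filter, mem_Ioc] at hn ⊢
      have a2 : A ≤ X := by exact_mod_cast hA5
      have a3 : ((2 * X : ℕ) : ℝ) ≤ N := by push_cast; linarith
      have a4 : 2 * X ≤ N := by exact_mod_cast a3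
      exact ⟨⟨by omega, by omega⟩, by linarith [hn.2]⟩
    exact_mod_cast this
  have hgu := hX1 X g1 H (by rw [← hLg]; exact hHgu) hH2 (-s) κ hns hκ0 (by
    rw [← hLg]
    calc _ ≤ P * (H * Lg ^ 48) := mul_le_mul_of_nonneg_right hEx (by positivity)
      _ ≤ P * (H * l ^ 50) := by
          refine mul_le_mul_of_nonneg_left (mul_le_mul_of_nonneg_left ?_ hH0.le) hP0
          exact (hLgk 48 (by norm_num)).trans (pow_le_pow_right₀ hl1 (by norm_num))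
      _ ≤ (X : ℝ) := hPX)
  rw [← hLg] at hgu
  have hs2 := hsgn X H s g4 hHn hH2X hs
  rw [← hL, ← hA, ← hN, ← hl] at hs2
  obtain ⟨S, hS⟩ : ∃ S : ℝ, S = ∑ n ∈ Ioc X (2 * X), |EI n H| := ⟨_, rfl⟩
  rw [← hS] at hgu hs2
  have hps := pos_sum s κ hs H A N hA4 hκ0
  rw [← hP] at hps
  -- all terms are at most `√H X / l^39`
  obtain ⟨V, hV⟩ : ∃ V : ℝ, V = √(H : ℝ) * X / l ^ 39 := ⟨_, rfl⟩
  have hsH0 : 0 < √(H : ℝ) := Real.sqrt_pos.mpr hH0
  have hsHH : √(H : ℝ) * √(H : ℝ) = H := Real.mul_self_sqrt hH0.le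
  have hV0 : 0 < V := by rw [hV]; positivity
  have hV2 : V * l ^ 39 = √(H : ℝ) * X := by
    rw [hV]
    field_simp
  have hsHl : l ^ 50 ≤ √(H : ℝ) := by
    apply Real.le_sqrt_of_sq_le
    calc (l ^ 50) ^ 2 = l ^ 100 := by ring
      _ ≤ l ^ 101 := pow_le_pow_right₀ hl1 (by norm_num)
      _ ≤ (H : ℝ) := hHl
  have t1 : κ * X * l ^ 1 ≤ V := by
    rw [hV, le_div_iff₀ (by positivity)]
    calc κ * X * l ^ 1 * l ^ 39 = κ * l ^ 40 * X := by ring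
      _ = √(H : ℝ) * X := by rw [hκH]
      _ ≤ √(H : ℝ) * X := le_rfl
  have t2 : H * P ≤ V := by
    rw [hV, le_div_iff₀ (by positivity)]
    calc (H : ℝ) * P * l ^ 39 ≤ H * P * l ^ 50 := by
          refine mul_le_mul_of_nonneg_left ?_ (by positivity)
          exact pow_le_pow_right₀ hl1 (by norm_num)
      _ = P * (H * l ^ 50) := by ring
      _ ≤ (X : ℝ) := hPX
      _ ≤ √(H : ℝ) * X := le_mul_of_one_le_left hX0.le ((one_le_pow₀ hl1).trans hsHl)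
  have hsX0 : 0 < √(X : ℝ) := Real.sqrt_pos.mpr hX0
  have k3' : l ^ 44 ≤ (X : ℝ) ^ (1 / 5 : ℝ) := by
    calc l ^ 44 ≤ l ^ 80 := pow_le_pow_right₀ hl1 (by norm_num)
      _ = l ^ (80 : ℝ) := by rw [← Real.rpow_natCast]; norm_num
      _ ≤ (X : ℝ) ^ (1 / 5 : ℝ) := k3
  have hX5 : (0 : ℝ) < (X : ℝ) ^ (1 / 5 : ℝ) := by positivity
  have hH12 : √(H : ℝ) * (X : ℝ) ^ (1 / 5 : ℝ) * √(X : ℝ) ≤ X := by
    have e1 : √(H : ℝ) ≤ (X : ℝ) ^ (1 / 10 : ℝ) := by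
      rw [Real.sqrt_le_left (by positivity), ← Real.rpow_natCast, ← Real.rpow_mul hX0.le]
      norm_num
      exact hH5
    calc √(H : ℝ) * (X : ℝ) ^ (1 / 5 : ℝ) * √(X : ℝ) ≤ (X : ℝ) ^ (1 / 10 : ℝ) * (X : ℝ) ^ (1 / 5 : ℝ) * √(X : ℝ) := by
          gcongr
      _ = (X : ℝ) ^ (4 / 5 : ℝ) := by
          rw [Real.sqrt_eq_rpow, ← Real.rpow_add hX0, ← Real.rpow_add hX0]
          norm_num
      _ ≤ (X : ℝ) ^ (1 : ℝ) := Real.rpow_le_rpow_of_exponent_le (by linarith) (by norm_num)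
      _ = (X : ℝ) := Real.rpow_one _
  have t3 : (H : ℝ) * √X * l ≤ V := by
    rw [hV, le_div_iff₀ (by positivity)]
    calc (H : ℝ) * √X * l * l ^ 39 = H * √X * l ^ 40 := by ring
      _ ≤ H * √X * (X : ℝ) ^ (1 / 5 : ℝ) := by
          refine mul_le_mul_of_nonneg_left (le_trans ?_ k3') (by positivity)
          exact pow_le_pow_right₀ hl1 (by norm_num)
      _ = √(H : ℝ) * (√(H : ℝ) * (X : ℝ) ^ (1 / 5 : ℝ) * √(X : ℝ)) := by
          rw [← mul_assoc, ← mul_assoc, hsHH]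
          ring
      _ ≤ √(H : ℝ) * X := mul_le_mul_of_nonneg_left hH12 hsH0.le
  have t4 : (H : ℝ) ^ 2 * l ^ 5 ≤ V := by
    rw [hV, le_div_iff₀ (by positivity)]
    calc (H : ℝ) ^ 2 * l ^ 5 * l ^ 39 = (H : ℝ) ^ 2 * l ^ 44 := by ring
      _ ≤ (X : ℝ) ^ (2 / 5 : ℝ) * (X : ℝ) ^ (1 / 5 : ℝ) := by gcongr
      _ = (X : ℝ) ^ (3 / 5 : ℝ) := by
          rw [← Real.rpow_add hX0]
          norm_num
      _ ≤ (X : ℝ) ^ (1 : ℝ) := Real.rpow_le_rpow_of_exponent_le (by linarith) (by norm_num)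
      _ = (X : ℝ) := Real.rpow_one _
      _ ≤ √(H : ℝ) * X := le_mul_of_one_le_left hX0.le ((one_le_pow₀ hl1).trans hsHl)
  -- the contradiction
  have u1 : κ * N ≤ 2 * V := by
    have := mul_le_mul_of_nonneg_left hN3 hκ0
    have e : κ * (2 * (l * X)) = 2 * (κ * X * l ^ 1) := by ring
    linarith
  have u2 : ∑ n ∈ Ioc A N, max (s * EI n H) 0 + H * √X * l + (H : ℝ) ^ 2 * l ^ 5 ≤ 5 * V := by linarith
  have u3 : S ≤ C * (5 * V) := hs2.trans (mul_le_mul_of_nonneg_left u2 hC.le)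
  have u4 : κ * X ≤ V := by
    have w1 : κ * X ≤ κ * X * l ^ 1 := by
      rw [pow_one]
      exact le_mul_of_one_le_right (by positivity) hl1
    linarith
  have u5 : κ * X + S ≤ 5 * (C + 1) * V := by linarith
  have u6 : √(H : ℝ) * X ≤ l ^ 33 * (5 * (C + 1) * V) := by
    refine hgu.trans (mul_le_mul (hLgk 32 (by norm_num)) u5 ?_ (by positivity))
    have : 0 ≤ S := by rw [hS]; exact sum_nonneg fun _ _ => abs_nonneg _
    positivity
  have u7 : l ^ 33 * (5 * (C + 1) * V) ≤ l ^ 35 * V := by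
    have w1 : 5 * (C + 1) ≤ l ^ 2 := by
      have : 5 * l ≤ l * l := mul_le_mul_of_nonneg_right (by linarith) hl0.le
      rw [sq]
      linarith
    calc l ^ 33 * (5 * (C + 1) * V) ≤ l ^ 33 * (l ^ 2 * V) := by gcongr
      _ = l ^ 35 * V := by ring
  have u8 : l ^ 35 * V < l ^ 39 * V := mul_lt_mul_of_pos_right (pow_lt_pow_right₀ (by linarith) (by norm_num)) hV0
  linarith

end Pool.Agent.H67.GU
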