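import Pool.Agent.H99.GC.Cov2
import Pool.Agent.H99.GC.Pd
import Pool.Agent.H99.GC.Kap
import Pool.Agent.H99.GB.Mv
import Pool.Agent.H99.GB.Four
import Pool.Agent.H99.GB.Hq
import Pool.Agent.H99.GB.Trf
import Pool.Agent.H67.VS.Cov
import Pool.Agent.H67.VU.Pnt3

/-!
# [H67 GU LEM] MP_31d0eb_nt: both signs for EVERY length `(log X)^B ≤ H ≤ X^(1/5-ε)`: lemmas

The lemmas of `H99/GC/Fin.lean` and `H99/GC/Ptw.lean` (private there), and for `H = 2R` or `2R + 1` the bound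
`M = ∑_{q ∈ QQ R} cq H q/(q-1) ≥ N/250` (`gM`): `q ∈ (6R/5, 9R/5]` has `H mod q = H - q`; at least `N/5` of the primes in `(R, 2R]` are there
(prime number theorem).
-/

set_option autoImplicit false

namespace Pool.Agent.H67.GU

open Finset Pool.Agent.H67.VS Pool.Agent.H48.WN Pool.Agent.H99.GB Pool.Agent.H99.GC Pool.Agent.H67.VU Filter

theorem gu_card (R : ℕ) : (QQ R).card ≤ R := by
  unfold QQ
  refine (card_filter_le _ _).trans ?_
  rw [Nat.card_Ioc]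
  omega

theorem gu_pl (R : ℕ) : ∑ n ∈ Ioc R (2 * R), pl n ≤ ((QQ R).card : ℝ) * Real.log (2 * R) := by
  have h : ∑ n ∈ Ioc R (2 * R), pl n = ∑ q ∈ QQ R, Real.log q := by
    unfold QQ pl
    rw [Finset.sum_filter]
  rw [h, ← nsmul_eq_mul]
  refine Finset.sum_le_card_nsmul _ _ _ fun q hq => ?_
  unfold QQ at hq
  rw [mem_filter, mem_Ioc] at hq
  have h1 : (0 : ℝ) < q := by exact_mod_cast hq.2.pos
  have h2 : (q : ℝ) ≤ 2 * R := by exact_mod_cast hq.1.2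
  exact Real.log_le_log h1 h2

theorem gu_log (X : ℕ) (hX : 1 ≤ X) : 1 ≤ Real.log (3 * X) := by
  have hX1r : (1 : ℝ) ≤ X := by exact_mod_cast hX
  rw [Real.le_log_iff_exp_le (by linarith)]
  have := Real.exp_one_lt_d9
  linarith

theorem gu_T (X H R : ℕ) (y K Θ M T W : ℝ) (hH1 : 1 ≤ H) (hHX : H ≤ X) (hRy : (R : ℝ) ≤ y)
    (h2R : 2 * R ≤ X) (hy0 : 0 < y) (hK1 : 1 ≤ K) (hlog : Real.log (3 * X) ≤ K)
    (hΘ : Θ = ∑ m ∈ Ioc X (2 * X), pl m) (hM : M = ∑ q ∈ QQ R, cq H q / ((q : ℝ) - 1))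
    (hT : T = ∑ i ∈ Ioc X (2 * X), G (QQ R) H i * ET i H)
    (hW : ∑ q ∈ QQ R, SC X q ≤ W) :
    |T + M * Θ| ≤ Real.sqrt (2 * y) * W + 20 * H * y ^ 2 * K := by
  have h1 : T + M * Θ = ∑ q ∈ QQ R, (∑ i ∈ Ioc X (2 * X), ph H q i * ET i H +
      cq H q / ((q : ℝ) - 1) * Θ) := by
    rw [Finset.sum_add_distrib, ← Finset.sum_mul, ← hM, Finset.sum_comm, hT]
    congr 1
    refine Finset.sum_congr rfl fun i _ => ?_
    unfold G
    rw [Finset.sum_mul]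
  have h2 : ∀ q ∈ QQ R, |∑ i ∈ Ioc X (2 * X), ph H q i * ET i H + cq H q / ((q : ℝ) - 1) * Θ| ≤
      Real.sqrt (2 * y) * SC X q + 20 * H * y * K := by
    intro q hqq
    have h3 := hqq
    unfold QQ at h3
    rw [mem_filter, mem_Ioc] at h3
    have hq2 : (q : ℝ) ≤ 2 * y := by
      have : (q : ℝ) ≤ 2 * R := by exact_mod_cast h3.1.2
      linarith
    have hqX : q ≤ X := by omega
    have h4 := cov X H q h3.2 hqX hH1 hHX
    rw [← hΘ] at h4
    refine h4.trans ?_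
    have hSC : 0 ≤ SC X q := by
      unfold SC
      exact Finset.sum_nonneg fun _ _ => norm_nonneg _
    have h5 : Real.sqrt q * SC X q ≤ Real.sqrt (2 * y) * SC X q :=
      mul_le_mul_of_nonneg_right (Real.sqrt_le_sqrt hq2) hSC
    have hl0 : 0 ≤ Real.log (3 * X) := by
      have := gu_log X (hH1.trans hHX)
      linarith
    have h6 : 10 * (H : ℝ) * q * Real.log (3 * X) ≤ 10 * H * (2 * y) * K := by
      have h7 : 10 * (H : ℝ) * q ≤ 10 * H * (2 * y) :=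
        mul_le_mul_of_nonneg_left hq2 (by positivity)
      exact mul_le_mul h7 hlog hl0 (by positivity)
    linarith
  rw [h1]
  refine (Finset.abs_sum_le_sum_abs _ _).trans ((Finset.sum_le_sum h2).trans ?_)
  rw [Finset.sum_add_distrib, Finset.sum_const, nsmul_eq_mul, ← Finset.mul_sum]
  have hQy : ((QQ R).card : ℝ) ≤ y := by
    have : ((QQ R).card : ℝ) ≤ R := by exact_mod_cast gu_card R
    linarith
  have h9 : ((QQ R).card : ℝ) * (20 * H * y * K) ≤ y * (20 * H * y * K) :=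
    mul_le_mul_of_nonneg_right hQy (by positivity)
  have h10 : Real.sqrt (2 * y) * ∑ q ∈ QQ R, SC X q ≤ Real.sqrt (2 * y) * W :=
    mul_le_mul_of_nonneg_left hW (Real.sqrt_nonneg _)
  have h11 : y * (20 * H * y * K) = 20 * H * y ^ 2 * K := by ring
  linarith

theorem gu_Q (X R : ℕ) (y K : ℝ) (hR1 : 1 ≤ R) (h2R : 2 * R ≤ X) (hRy2 : y / 2 ≤ R) (hK1 : 1 ≤ K)
    (hlog : Real.log (3 * X) ≤ K)
    (hThR : (1 - 1 / 2) * (R : ℝ) ≤ ∑ n ∈ Ioc R (2 * R), pl n) : y / (4 * K) ≤ ((QQ R).card : ℝ) := by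
  have h1 := gu_pl R
  have h2 : Real.log (2 * R) ≤ K := by
    refine le_trans (Real.log_le_log ?_ ?_) hlog
    · have : (1 : ℝ) ≤ R := by exact_mod_cast hR1
      linarith
    · have : 2 * R ≤ 3 * X := by omega
      exact_mod_cast this
  have h3 : ((QQ R).card : ℝ) * Real.log (2 * R) ≤ ((QQ R).card : ℝ) * K :=
    mul_le_mul_of_nonneg_left h2 (Nat.cast_nonneg _)
  rw [div_le_iff₀ (by positivity)]
  have h4 : ((QQ R).card : ℝ) * (4 * K) = 4 * (((QQ R).card : ℝ) * K) := by ring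
  linarith

theorem gu_d (X H : ℕ) (K S E : ℝ) (hX3 : 3 ≤ X) (hH2 : H ^ 2 ≤ X) (hlog : Real.log (3 * X) ≤ K)
    (hS : S = ∑ i ∈ Ioc X (2 * X), |ET i H|) (hE : E = ∑ n ∈ Ioc X (2 * X), |EI n H|) :
    S ≤ K * E + 2 * X := by
  rw [hS, hE, Finset.mul_sum]
  have h1 : ∀ n ∈ Ioc X (2 * X), |ET n H| ≤ K * |EI n H| + 2 := by
    intro n hn
    rw [mem_Ioc] at hn
    have h2 := trf n H (by omega) (by omega)
    have h3 : |ET n H| ≤ |ET n H - Real.log n * EI n H| + |Real.log n * EI n H| := by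
      have h4 := abs_add_le (ET n H - Real.log n * EI n H) (Real.log n * EI n H)
      rwa [sub_add_cancel] at h4
    have h5 : |Real.log n * EI n H| ≤ K * |EI n H| := by
      rw [abs_mul, abs_of_nonneg (Real.log_natCast_nonneg n)]
      refine mul_le_mul_of_nonneg_right ?_ (abs_nonneg _)
      refine le_trans (Real.log_le_log ?_ ?_) hlog
      · have : 0 < n := by omega
        exact_mod_cast this
      · have : n ≤ 3 * X := by omega
        exact_mod_cast this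
    linarith
  refine (Finset.sum_le_sum h1).trans ?_
  rw [Finset.sum_add_distrib, Finset.sum_const, Nat.card_Ioc, nsmul_eq_mul]
  have h2 : 2 * X - X = X := by omega
  rw [h2]
  linarith

theorem gu_ph (H q x : ℕ) (hq : 0 < q) : |ph H q x| ≤ 1 := by
  unfold ph
  have hq0 : (0 : ℝ) < q := by exact_mod_cast hq
  rw [abs_div, abs_of_pos hq0, div_le_one hq0, abs_le]
  have h1 : ((x % q : ℕ) : ℝ) < q := by exact_mod_cast Nat.mod_lt x hq
  have h2 : (((x + H) % q : ℕ) : ℝ) < q := by exact_mod_cast Nat.mod_lt (x + H) hq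
  have h3 : (0 : ℝ) ≤ ((x % q : ℕ) : ℝ) := Nat.cast_nonneg _
  have h4 : (0 : ℝ) ≤ (((x + H) % q : ℕ) : ℝ) := Nat.cast_nonneg _
  constructor <;> linarith

theorem gu_g2 (X H R : ℕ) (x y : ℝ) (hX1 : 1 ≤ X) (hR1 : 1 ≤ R) (hx : x = X) (hRy : (R : ℝ) ≤ y)
    (hy4 : y ^ 4 ≤ x) (hx0 : 0 < x) :
    ∑ i ∈ Ioc X (2 * X), G (QQ R) H i ^ 2 ≤ 42 * x * ((QQ R).card : ℝ) := by
  have hfour := four X H R hX1 hR1
  rw [← hx] at hfour
  have h1 : (R : ℝ) ^ 4 ≤ x := (pow_le_pow_left₀ (Nat.cast_nonneg _) hRy 4).trans hy4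
  have h3 : 100 * (x + 16 * (R : ℝ) ^ 4) ≤ 1700 * x := by linarith
  have h4 : 100 * (x + 16 * (R : ℝ) ^ 4) * ((QQ R).card : ℝ) ^ 2 ≤ 1700 * x * ((QQ R).card : ℝ) ^ 2 :=
    mul_le_mul_of_nonneg_right h3 (by positivity)
  have h5 := sq_sum_le_card_mul_sum_sq (s := Ioc X (2 * X)) (f := fun i => G (QQ R) H i ^ 2)
  have h6 : 2 * X - X = X := by omega
  rw [Nat.card_Ioc, h6, ← hx] at h5
  have h7 : ∑ i ∈ Ioc X (2 * X), (G (QQ R) H i ^ 2) ^ 2 = ∑ i ∈ Ioc X (2 * X), G (QQ R) H i ^ 4 :=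
    Finset.sum_congr rfl fun i _ => by ring
  rw [h7] at h5
  have h8 : x * ∑ i ∈ Ioc X (2 * X), G (QQ R) H i ^ 4 ≤ x * (1700 * x * ((QQ R).card : ℝ) ^ 2) :=
    mul_le_mul_of_nonneg_left (hfour.trans h4) hx0.le
  refine le_of_sq_le_sq ?_ (by positivity)
  refine h5.trans (h8.trans ?_)
  have h9 : (42 * x * ((QQ R).card : ℝ)) ^ 2 = 1764 * (x * x * ((QQ R).card : ℝ) ^ 2) := by ring
  have h10 : x * (1700 * x * ((QQ R).card : ℝ) ^ 2) = 1700 * (x * x * ((QQ R).card : ℝ) ^ 2) := by ring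
  rw [h9, h10]
  have h11 : 0 ≤ x * x * ((QQ R).card : ℝ) ^ 2 := by positivity
  linarith

theorem gu_p2 (X H R : ℕ) (Lg : ℝ) (hLg : Lg = 1 + Real.log (3 * X)) (hR : 1 ≤ R) (hRX : 2 * R ≤ X)
    (hH : 1 ≤ H) (hHX : H ≤ X) :
    P2 X H R ≤ H * X * Lg + (2 * H * (Real.sqrt (2 * R) * Lg) / R) * ∑ q ∈ QQ R, SC X q +
      (2 * H * Lg ^ 2 / R) * ∑ q ∈ QQ R, ∑ r ∈ QQ R, (if q < r then SD X q r else 0) +
      10 * (H : ℝ) ^ 2 * (R : ℝ) ^ 2 * Lg + 4 * H * (R : ℝ) ^ 4 := by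
  classical
  have hR1 : (1 : ℝ) ≤ R := by exact_mod_cast hR
  have hX1 : (1 : ℝ) ≤ X := by
    have : 1 ≤ X := by omega
    exact_mod_cast this
  have hH0 : (0 : ℝ) ≤ H := Nat.cast_nonneg _
  have hl0 : 0 ≤ Real.log (3 * X) := Real.log_nonneg (by linarith)
  have hLg1 : 1 ≤ Lg := by rw [hLg]; linarith
  have hlL : Real.log (3 * X) ≤ Lg := by rw [hLg]; linarith
  obtain ⟨V, hV⟩ : ∃ V : ℝ, V = Real.sqrt (2 * R) * Lg := ⟨_, rfl⟩
  have hV0 : 0 ≤ V := by rw [hV]; positivity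
  have hV2 : V ^ 2 = 2 * R * Lg ^ 2 := by
    rw [hV, mul_pow, Real.sq_sqrt (by positivity)]
  obtain ⟨Sp, hSp⟩ : ∃ Sp : ℝ, Sp = ∑ n ∈ Ioc X (2 * X), pl n := ⟨_, rfl⟩
  have hSp0 : 0 ≤ Sp := by rw [hSp]; exact sum_nonneg fun n _ => cov_pl_nonneg n
  have hSp1 : Sp ≤ X * Lg := by
    rw [hSp]
    have h1 : ∑ n ∈ Ioc X (2 * X), pl n ≤ ∑ n ∈ Ioc X (2 * X), Lg := by
      refine sum_le_sum fun n hn => ?_
      rw [mem_Ioc] at hn
      have h2 : (n : ℝ) ≤ 3 * X := by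
        have : n ≤ 3 * X := by omega
        exact_mod_cast this
      exact (cov_pl_le h2 (by linarith)).trans hlL
    refine h1.trans (le_of_eq ?_)
    rw [sum_const, Nat.card_Ioc, nsmul_eq_mul]
    congr 2
    omega
  have hSC0 : ∀ q, 0 ≤ SC X q := fun q => by
    unfold SC
    exact sum_nonneg fun _ _ => norm_nonneg _
  have hSD0 : ∀ q r, 0 ≤ SD X q r := fun q r => by
    unfold SD
    exact sum_nonneg fun _ _ => sum_nonneg fun _ _ => norm_nonneg _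
  have hcard : ((QQ R).card : ℝ) ≤ R := by
    have h1 : (QQ R).card ≤ R := by
      unfold QQ
      refine (card_filter_le _ _).trans ?_
      rw [Nat.card_Ioc]
      omega
    exact_mod_cast h1
  have hcard0 : (0 : ℝ) ≤ ((QQ R).card : ℝ) := Nat.cast_nonneg _
  have hpv0 : ∀ q : ℕ, 0 ≤ pv q := fun q => by
    unfold pv
    have := Real.log_natCast_nonneg q
    positivity
  have hq : ∀ q ∈ QQ R, q.Prime ∧ q ≤ X ∧ (R : ℝ) ≤ (q : ℝ) - 1 ∧ (q : ℝ) ≤ 2 * R ∧ pv q ≤ V := by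
    intro q hq
    unfold QQ at hq
    rw [mem_filter, mem_Ioc] at hq
    have h1 : (R : ℝ) + 1 ≤ q := by exact_mod_cast hq.1.1
    have h2 : (q : ℝ) ≤ 2 * R := by exact_mod_cast hq.1.2
    have h3 : (q : ℝ) ≤ X := by
      have : q ≤ X := hq.1.2.trans hRX
      exact_mod_cast this
    refine ⟨hq.2, hq.1.2.trans hRX, by linarith, h2, ?_⟩
    unfold pv
    rw [hV, hLg]
    have h4 : Real.log q ≤ Real.log (3 * X) := Real.log_le_log (by linarith) (by linarith)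
    have h5 := Real.log_natCast_nonneg q
    exact mul_le_mul (Real.sqrt_le_sqrt h2) (by linarith) (by linarith) (Real.sqrt_nonneg _)
  have hterm : ∀ q ∈ QQ R, ∀ r ∈ QQ R,
      (if q < r then |∑ x ∈ Ioc X (2 * X), ph H q x * ph H r x * ET x H| else 0) ≤
      (H : ℝ) / (R : ℝ) ^ 2 * (Sp + V * SC X q + V * SC X r + V ^ 2 * (if q < r then SD X q r else 0)) +
        (10 * (H : ℝ) ^ 2 * Lg + 4 * H * (R : ℝ) ^ 2) := by
    intro q hqq r hrr
    obtain ⟨q1, q2, q3, q4, q5⟩ := hq q hqq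
    obtain ⟨r1, r2, r3, r4, r5⟩ := hq r hrr
    split_ifs with hlt
    · have h1 := cov2 X H q r q1 r1 hlt.ne q2 r2 hH hHX
      rw [← hSp] at h1
      refine h1.trans ?_
      have e1 : (H : ℝ) / (((q : ℝ) - 1) * ((r : ℝ) - 1)) ≤ (H : ℝ) / (R : ℝ) ^ 2 := by
        apply div_le_div_of_nonneg_left hH0 (by positivity)
        rw [pow_two]
        exact mul_le_mul q3 r3 (by linarith) (by linarith)
      have e2 : Sp + pv q * SC X q + pv r * SC X r + pv q * pv r * SD X q r ≤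
          Sp + V * SC X q + V * SC X r + V ^ 2 * SD X q r := by
        have a1 := mul_le_mul_of_nonneg_right q5 (hSC0 q)
        have a2 := mul_le_mul_of_nonneg_right r5 (hSC0 r)
        have a3 : pv q * pv r ≤ V ^ 2 := by
          rw [pow_two]
          exact mul_le_mul q5 r5 (hpv0 r) hV0
        have a4 := mul_le_mul_of_nonneg_right a3 (hSD0 q r)
        linarith
      have e3 : 0 ≤ Sp + pv q * SC X q + pv r * SC X r + pv q * pv r * SD X q r := by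
        have a1 := mul_nonneg (hpv0 q) (hSC0 q)
        have a2 := mul_nonneg (hpv0 r) (hSC0 r)
        have a3 := mul_nonneg (mul_nonneg (hpv0 q) (hpv0 r)) (hSD0 q r)
        linarith
      have e4 := mul_le_mul e1 e2 e3 (by positivity)
      have e5 : 10 * (H : ℝ) ^ 2 * Real.log (3 * X) ≤ 10 * (H : ℝ) ^ 2 * Lg :=
        mul_le_mul_of_nonneg_left hlL (by positivity)
      have e6 : (H : ℝ) * (q * r) ≤ 4 * H * (R : ℝ) ^ 2 := by
        have a1 : (q : ℝ) * r ≤ (2 * R) * (2 * R) := mul_le_mul q4 r4 (Nat.cast_nonneg _) (by positivity)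
        calc (H : ℝ) * (q * r) ≤ H * ((2 * R) * (2 * R)) := mul_le_mul_of_nonneg_left a1 hH0
          _ = _ := by ring
      linarith
    · have a1 := mul_nonneg hV0 (hSC0 q)
      have a2 := mul_nonneg hV0 (hSC0 r)
      have a3 : 0 ≤ (H : ℝ) / (R : ℝ) ^ 2 := by positivity
      have a4 : 0 ≤ Sp + V * SC X q + V * SC X r + V ^ 2 * (0 : ℝ) := by linarith
      have a5 := mul_nonneg a3 a4
      have a6 : 0 ≤ 10 * (H : ℝ) ^ 2 * Lg + 4 * H * (R : ℝ) ^ 2 := by positivity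
      linarith
  have hsum : P2 X H R ≤ ∑ q ∈ QQ R, ∑ r ∈ QQ R, ((H : ℝ) / (R : ℝ) ^ 2 * (Sp + V * SC X q + V * SC X r +
      V ^ 2 * (if q < r then SD X q r else 0)) + (10 * (H : ℝ) ^ 2 * Lg + 4 * H * (R : ℝ) ^ 2)) := by
    unfold P2
    exact sum_le_sum fun q hqq => sum_le_sum fun r hrr => hterm q hqq r hrr
  refine hsum.trans ?_
  obtain ⟨Ts, hTs⟩ : ∃ Ts : ℝ, Ts = ∑ q ∈ QQ R, SC X q := ⟨_, rfl⟩
  obtain ⟨Td, hTd⟩ : ∃ Td : ℝ, Td = ∑ q ∈ QQ R, ∑ r ∈ QQ R, (if q < r then SD X q r else 0) := ⟨_, rfl⟩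
  have hTs0 : 0 ≤ Ts := by rw [hTs]; exact sum_nonneg fun q _ => hSC0 q
  obtain ⟨n, hn⟩ : ∃ n : ℝ, n = ((QQ R).card : ℝ) := ⟨_, rfl⟩
  have hexp : ∑ q ∈ QQ R, ∑ r ∈ QQ R, ((H : ℝ) / (R : ℝ) ^ 2 * (Sp + V * SC X q + V * SC X r +
      V ^ 2 * (if q < r then SD X q r else 0)) + (10 * (H : ℝ) ^ 2 * Lg + 4 * H * (R : ℝ) ^ 2)) =
      (H : ℝ) / (R : ℝ) ^ 2 * (n ^ 2 * Sp + 2 * n * V * Ts + V ^ 2 * Td) +
        n ^ 2 * (10 * (H : ℝ) ^ 2 * Lg + 4 * H * (R : ℝ) ^ 2) := by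
    rw [hTs, hTd, hn]
    simp only [sum_add_distrib, ← mul_sum, sum_const, nsmul_eq_mul]
    ring
  rw [hexp, ← hTs, ← hTd, ← hV]
  rw [← hn] at hcard hcard0
  have hTd0 : 0 ≤ Td := by
    rw [hTd]
    refine sum_nonneg fun q _ => sum_nonneg fun r _ => ?_
    split_ifs
    · exact hSD0 q r
    · exact le_rfl
  have hn2 : n ^ 2 ≤ (R : ℝ) ^ 2 := pow_le_pow_left₀ hcard0 hcard 2
  have f1 : n ^ 2 * Sp + 2 * n * V * Ts + V ^ 2 * Td ≤ (R : ℝ) ^ 2 * (X * Lg) + 2 * R * V * Ts + V ^ 2 * Td := by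
    have a1 : n ^ 2 * Sp ≤ (R : ℝ) ^ 2 * (X * Lg) := mul_le_mul hn2 hSp1 hSp0 (by positivity)
    have a2 : 2 * n * V * Ts ≤ 2 * R * V * Ts := by gcongr
    linarith
  have f2 : n ^ 2 * (10 * (H : ℝ) ^ 2 * Lg + 4 * H * (R : ℝ) ^ 2) ≤
      (R : ℝ) ^ 2 * (10 * (H : ℝ) ^ 2 * Lg + 4 * H * (R : ℝ) ^ 2) :=
    mul_le_mul_of_nonneg_right hn2 (by positivity)
  have f3 := mul_le_mul_of_nonneg_left f1 (show (0 : ℝ) ≤ (H : ℝ) / (R : ℝ) ^ 2 by positivity)
  have f4 : (H : ℝ) / (R : ℝ) ^ 2 * ((R : ℝ) ^ 2 * (X * Lg) + 2 * R * V * Ts + V ^ 2 * Td) =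
      H * X * Lg + (2 * H * V / R) * Ts + (2 * H * Lg ^ 2 / R) * Td := by
    rw [hV2]
    field_simp
  have f5 : (R : ℝ) ^ 2 * (10 * (H : ℝ) ^ 2 * Lg + 4 * H * (R : ℝ) ^ 2) =
      10 * (H : ℝ) ^ 2 * (R : ℝ) ^ 2 * Lg + 4 * H * (R : ℝ) ^ 4 := by ring
  linarith


/-- lower bound of the first order term -/
theorem gu_b2 (x y K N M Θ T E2 : ℝ) (hx0 : 0 < x) (hy0 : 0 < y) (hK6 : (10 : ℝ) ^ 6 ≤ K)
    (hQ : y / (4 * K) ≤ N) (hM : N / 250 ≤ M) (hΘ : (1 - 1 / 2) * x ≤ Θ)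
    (hT : |T + M * Θ| ≤ 2 * (y * x) / K ^ 2 + E2) (hE2 : E2 ≤ (y * x) / K ^ 2 / 1000) :
    N * x / 600 ≤ -T := by
  have hK0 : (0 : ℝ) < K := by linarith
  have hN0 : 0 < N := lt_of_lt_of_le (by positivity) hQ
  have h2 : (N / 250) * (x / 2) ≤ M * Θ := by
    refine mul_le_mul hM (by linarith) (by positivity) (le_trans (by positivity) hM)
  rw [div_le_iff₀ (by positivity)] at hQ
  have h3 : y * x / K ^ 2 ≤ N * x * (4 / 10 ^ 6) := by
    rw [div_le_iff₀ (by positivity)]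
    have h4 : y * x ≤ N * (4 * K) * x := mul_le_mul_of_nonneg_right hQ hx0.le
    have h5 : N * x * (4 / 10 ^ 6) * (K * 10 ^ 6) ≤ N * x * (4 / 10 ^ 6) * (K * K) :=
      mul_le_mul_of_nonneg_left (mul_le_mul_of_nonneg_left hK6 hK0.le) (by positivity)
    have h6 : N * x * (4 / 10 ^ 6) * (K * 10 ^ 6) = N * (4 * K) * x := by ring
    have h7 : N * x * (4 / 10 ^ 6) * (K * K) = N * x * (4 / 10 ^ 6) * K ^ 2 := by ring
    linarith
  have h8 : 2 * (y * x) / K ^ 2 = 2 * (y * x / K ^ 2) := by ring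
  rw [h8] at hT
  have h9 := le_abs_self (T + M * Θ)
  have h10 : (N / 250) * (x / 2) = N * x / 500 := by ring
  have h11 : 0 < N * x := by positivity
  have h12 := (abs_le.mp hT).1
  have h13 := (abs_le.mp hT).2
  linarith

theorem gu_ex (X H R : ℕ) (x y D b : ℝ) (Ex : Finset ℕ) (hEx : Ex ⊆ Ioc X (2 * X)) (hX1 : 1 ≤ X) (hR1 : 1 ≤ R)
    (hx : x = X) (hRy : (R : ℝ) ≤ y) (hy4 : y ^ 4 ≤ x) (hD : 0 ≤ D) (hb : 0 ≤ b)
    (hc : (Ex.card : ℝ) * x ≤ b ^ 2) :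
    ∑ i ∈ Ex, D * (2 * ((QQ R).card : ℝ) + 2 * G (QQ R) H i ^ 2) ≤ 86 * D * ((QQ R).card : ℝ) * b := by
  have hfour := four X H R hX1 hR1
  rw [← hx] at hfour
  have h1 : (R : ℝ) ^ 4 ≤ x := (pow_le_pow_left₀ (Nat.cast_nonneg _) hRy 4).trans hy4
  have h3 : 100 * (x + 16 * (R : ℝ) ^ 4) ≤ 1700 * x := by linarith
  have h4 : 100 * (x + 16 * (R : ℝ) ^ 4) * ((QQ R).card : ℝ) ^ 2 ≤ 1700 * x * ((QQ R).card : ℝ) ^ 2 :=
    mul_le_mul_of_nonneg_right h3 (by positivity)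
  have h5 := sq_sum_le_card_mul_sum_sq (s := Ex) (f := fun i => G (QQ R) H i ^ 2)
  have h7 : ∑ i ∈ Ex, (G (QQ R) H i ^ 2) ^ 2 ≤ ∑ i ∈ Ioc X (2 * X), G (QQ R) H i ^ 4 := by
    have e : ∀ i, (G (QQ R) H i ^ 2) ^ 2 = G (QQ R) H i ^ 4 := fun i => by ring
    simp only [e]
    exact Finset.sum_le_sum_of_subset_of_nonneg hEx fun i _ _ => by positivity
  have h8 : ∑ i ∈ Ex, G (QQ R) H i ^ 2 ≤ 42 * ((QQ R).card : ℝ) * b := by
    refine le_of_sq_le_sq ?_ (by positivity)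
    refine h5.trans ?_
    have e1 : (Ex.card : ℝ) * ∑ i ∈ Ex, (G (QQ R) H i ^ 2) ^ 2 ≤ (Ex.card : ℝ) * (1700 * x * ((QQ R).card : ℝ) ^ 2) :=
      mul_le_mul_of_nonneg_left (h7.trans (hfour.trans h4)) (Nat.cast_nonneg _)
    have e2 : (Ex.card : ℝ) * (1700 * x * ((QQ R).card : ℝ) ^ 2) = 1700 * ((QQ R).card : ℝ) ^ 2 * ((Ex.card : ℝ) * x) := by ring
    have e3 : 1700 * ((QQ R).card : ℝ) ^ 2 * ((Ex.card : ℝ) * x) ≤ 1700 * ((QQ R).card : ℝ) ^ 2 * b ^ 2 :=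
      mul_le_mul_of_nonneg_left hc (by positivity)
    have e4 : (42 * ((QQ R).card : ℝ) * b) ^ 2 = 1764 * (((QQ R).card : ℝ) ^ 2 * b ^ 2) := by ring
    have e5 : 0 ≤ ((QQ R).card : ℝ) ^ 2 * b ^ 2 := by positivity
    linarith
  have h9 : (Ex.card : ℝ) ≤ b := by
    have e1 : (Ex.card : ℝ) ≤ x := by
      have := Finset.card_le_card hEx
      rw [Nat.card_Ioc] at this
      rw [hx]
      have e2 : Ex.card ≤ X := by omega
      exact_mod_cast e2
    have e3 : (Ex.card : ℝ) ^ 2 ≤ b ^ 2 := by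
      refine le_trans ?_ hc
      rw [sq]
      exact mul_le_mul_of_nonneg_left e1 (Nat.cast_nonneg _)
    exact le_of_sq_le_sq e3 hb
  rw [← Finset.mul_sum, Finset.sum_add_distrib, Finset.sum_const, nsmul_eq_mul, ← Finset.mul_sum]
  have h10 : (Ex.card : ℝ) * (2 * ((QQ R).card : ℝ)) ≤ b * (2 * ((QQ R).card : ℝ)) :=
    mul_le_mul_of_nonneg_right h9 (by positivity)
  have h11 : (Ex.card : ℝ) * (2 * ((QQ R).card : ℝ)) + 2 * ∑ i ∈ Ex, G (QQ R) H i ^ 2 ≤ 86 * ((QQ R).card : ℝ) * b := by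
    linarith
  have h12 := mul_le_mul_of_nonneg_left h11 hD
  linarith

theorem gu_et (X n H : ℕ) (hn : n ∈ Ioc X (2 * X)) (hH : H ≤ X) : |ET n H| ≤ 2 * H * Real.log (3 * X) := by
  rw [mem_Ioc] at hn
  have hX1 : 1 ≤ X := by omega
  have hl := gu_log X hX1
  have h1 : ∀ m ∈ Ioc n (n + H), pl m ≤ Real.log (3 * X) := by
    intro m hm
    rw [mem_Ioc] at hm
    unfold pl
    split_ifs with h
    · refine Real.log_le_log ?_ ?_
      · exact_mod_cast h.pos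
      · have : m ≤ 3 * X := by omega
        exact_mod_cast this
    · linarith
  have h2 : ∀ m, 0 ≤ pl m := by
    intro m
    unfold pl
    split_ifs
    · exact Real.log_natCast_nonneg m
    · exact le_rfl
  have h3 : ∑ m ∈ Ioc n (n + H), pl m ≤ H * Real.log (3 * X) := by
    have := Finset.sum_le_card_nsmul _ _ _ h1
    rwa [Nat.card_Ioc, show n + H - n = H by omega, nsmul_eq_mul] at this
  have h4 : 0 ≤ ∑ m ∈ Ioc n (n + H), pl m := Finset.sum_nonneg fun m _ => h2 m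
  have h5 : (H : ℝ) * 1 ≤ H * Real.log (3 * X) := mul_le_mul_of_nonneg_left hl (Nat.cast_nonneg _)
  unfold ET
  rw [abs_le]
  constructor <;> linarith [(Nat.cast_nonneg H : (0 : ℝ) ≤ H)]

/-- the conclusion -/
theorem gu_f2 (x y w K N T κ κ' L S2 SE E P W : ℝ) (hx0 : 0 < x) (hy0 : 0 < y) (hw0 : 0 < w)
    (hwy : w ^ 2 = y) (hK6 : (10 : ℝ) ^ 6 ≤ K) (hQ : y / (4 * K) ≤ N) (hT : N * x / 600 ≤ -T)
    (hκ0 : 0 ≤ κ) (hκ' : κ' = κ * L + 2) (hL : L ≤ K) (hL0 : 0 ≤ L) (hS2 : S2 ≤ 42 * x * N)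
    (hSE : SE ≤ K * E + 2 * x) (hE0 : 0 ≤ E) (hP : P * K ^ 3 ≤ x * (y * w)) (hwK : K ^ 2 ≤ w)
    (hW : W * K ^ 2 ≤ N * (x * w))
    (h : 2 * Real.sqrt N * (-T) ≤ κ' * (2 * N * x + 2 * S2) + W + 2 * N * SE + 2 * P) :
    w * x / K ^ 3 ≤ κ * x + E := by
  have hK0 : (0 : ℝ) < K := by linarith
  have hN0 : 0 < N := lt_of_lt_of_le (by positivity) hQ
  have hQ2 : y ≤ N * (4 * K) := by rwa [div_le_iff₀ (by positivity)] at hQ
  -- lower bound of the left side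
  have hsq : w / K ≤ Real.sqrt N := by
    apply Real.le_sqrt_of_sq_le
    rw [div_pow, hwy, div_le_iff₀ (by positivity)]
    have h1 : N * (4 * K) ≤ N * (K * K) :=
      mul_le_mul_of_nonneg_left (mul_le_mul_of_nonneg_right (by linarith) hK0.le) hN0.le
    have h2 : N * (K * K) = N * K ^ 2 := by ring
    linarith
  have hleft : 2 * (w / K) * (N * x / 600) ≤ 2 * Real.sqrt N * (-T) := by
    refine mul_le_mul ?_ hT (by positivity) (by positivity)
    linarith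
  -- upper bound of the right side
  have hκK : κ' ≤ κ * K + 2 := by
    rw [hκ']
    have := mul_le_mul_of_nonneg_left hL hκ0
    linarith
  have hκ'0 : 0 ≤ κ' := by rw [hκ']; positivity
  have h1 : κ' * (2 * N * x + 2 * S2) ≤ (κ * K + 2) * (86 * (N * x)) := by
    have h2 : 2 * N * x + 2 * S2 ≤ 86 * (N * x) := by linarith
    have h3 : κ' * (2 * N * x + 2 * S2) ≤ κ' * (86 * (N * x)) := mul_le_mul_of_nonneg_left h2 hκ'0
    have h4 : κ' * (86 * (N * x)) ≤ (κ * K + 2) * (86 * (N * x)) :=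
      mul_le_mul_of_nonneg_right hκK (by positivity)
    linarith
  have h2 : 2 * N * SE ≤ 2 * N * (K * E + 2 * x) := mul_le_mul_of_nonneg_left hSE (by positivity)
  have hP2 : 2 * P ≤ N * (8 * (x * w / K ^ 2)) := by
    have h3 : P ≤ x * (y * w) / K ^ 3 := by
      rw [le_div_iff₀ (by positivity)]
      exact hP
    have h4 : x * (y * w) / K ^ 3 ≤ x * (N * (4 * K) * w) / K ^ 3 := by
      refine div_le_div_of_nonneg_right ?_ (by positivity)
      exact mul_le_mul_of_nonneg_left (mul_le_mul_of_nonneg_right hQ2 hw0.le) hx0.le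
    have h5 : x * (N * (4 * K) * w) / K ^ 3 = N * (4 * (x * w / K ^ 2)) := by
      field_simp
    linarith
  have hW2 : W ≤ N * (x * w / K ^ 2) := by
    rw [← mul_div_assoc, le_div_iff₀ (by positivity)]
    exact hW
  have h3 : N * (2 * (w / K) * (x / 600)) ≤ N * ((κ * K + 2) * (86 * x) + 2 * (K * E + 2 * x) +
      9 * (x * w / K ^ 2)) := by
    have e1 : N * (2 * (w / K) * (x / 600)) = 2 * (w / K) * (N * x / 600) := by ring
    have e2 : N * ((κ * K + 2) * (86 * x) + 2 * (K * E + 2 * x) + 9 * (x * w / K ^ 2)) =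
        (κ * K + 2) * (86 * (N * x)) + 2 * N * (K * E + 2 * x) + N * (8 * (x * w / K ^ 2)) +
          N * (x * w / K ^ 2) := by ring
    rw [e1, e2]
    linarith
  have h4 := le_of_mul_le_mul_left h3 hN0
  obtain ⟨a, ha⟩ : ∃ a : ℝ, a = w * x / K := ⟨_, rfl⟩
  have ha0 : 0 < a := by rw [ha]; positivity
  have e1 : 2 * (w / K) * (x / 600) = a / 300 := by rw [ha]; ring
  have e2 : x * w / K ^ 2 = a / K := by rw [ha]; field_simp
  have e3 : x ≤ a / K := by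
    rw [ha, div_div, le_div_iff₀ (by positivity)]
    have h5 : x * K ^ 2 ≤ x * w := mul_le_mul_of_nonneg_left hwK hx0.le
    have h6 : x * (K * K) = x * K ^ 2 := by ring
    linarith
  have e4 : a / K ≤ a / 10 ^ 6 := div_le_div_of_nonneg_left ha0.le (by norm_num) hK6
  rw [e1, e2] at h4
  obtain ⟨V, hV⟩ : ∃ V : ℝ, V = κ * x + E := ⟨_, rfl⟩
  have hV0 : 0 ≤ V := by rw [hV]; positivity
  have h5 : a / 400 ≤ 86 * (K * V) := by
    have h6 : (κ * K + 2) * (86 * x) + 2 * (K * E + 2 * x) = 86 * (K * V) - 84 * (K * E) + 176 * x := by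
      rw [hV]
      ring
    have h7 : 0 ≤ K * E := by positivity
    rw [h6] at h4
    linarith
  rw [← hV]
  have e5 : w * x / K ^ 3 = a / K ^ 2 := by rw [ha]; field_simp
  rw [e5, div_le_iff₀ (by positivity)]
  have h6 : 34400 * (K * V) ≤ K * (K * V) := mul_le_mul_of_nonneg_right (by linarith) (by positivity)
  have h7 : V * K ^ 2 = K * (K * V) := by ring
  linarith

private theorem th_two (δ : ℝ) (hδ : 0 < δ) : ∃ x0 : ℝ, ∀ a b : ℕ, x0 ≤ a → a ≤ b →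
    |∑ n ∈ Ioc a b, pl n - ((b : ℝ) - a)| ≤ δ * (a + b) := by
  have h1 := Pool.Agent.H5.PNT.theta_tendsto
  have h2 : ∀ᶠ x : ℝ in atTop, |Chebyshev.theta x / x - 1| < δ := by
    have h3 := Metric.tendsto_nhds.1 h1 δ hδ
    filter_upwards [h3] with x hx
    rwa [Real.dist_eq] at hx
  obtain ⟨x0, hx0⟩ := eventually_atTop.1 h2
  refine ⟨max x0 1, fun a b ha hab => ?_⟩
  have ha0 : x0 ≤ (a : ℝ) := (le_max_left _ _).trans ha
  have ha1 : (1 : ℝ) ≤ a := (le_max_right _ _).trans ha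
  have hab' : (a : ℝ) ≤ b := by exact_mod_cast hab
  have hb : ∀ y : ℝ, x0 ≤ y → 0 < y → |Chebyshev.theta y - y| ≤ δ * y := by
    intro y hy hy0
    have h3 := (hx0 y hy).le
    have h4 : Chebyshev.theta y - y = (Chebyshev.theta y / y - 1) * y := by
      field_simp
    rw [h4, abs_mul, abs_of_pos hy0]
    exact mul_le_mul_of_nonneg_right h3 hy0.le
  have h5 := abs_le.1 (hb a ha0 (by linarith))
  have h6 := abs_le.1 (hb b (by linarith) (by linarith))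
  rw [← pnt3_theta a b hab, abs_le]
  constructor <;> linarith [h5.1, h5.2, h6.1, h6.2]

/-- many good primes -/
theorem gM : ∃ R0 : ℕ, ∀ R H : ℕ, R0 ≤ R → 2 * R ≤ H → H ≤ 2 * R + 1 →
    ((QQ R).card : ℝ) / 250 ≤ ∑ q ∈ QQ R, cq H q / ((q : ℝ) - 1) := by
  obtain ⟨x0, hth⟩ := th_two (1 / 100) (by norm_num)
  refine ⟨max ⌈x0⌉₊ 1000, fun R H hR hH1 hH2 => ?_⟩
  have hR1 : x0 ≤ R := (Nat.le_ceil x0).trans (by exact_mod_cast (le_max_left _ _).trans hR)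
  have hR2 : 1000 ≤ R := (le_max_right _ _).trans hR
  have hRr : (1000 : ℝ) ≤ R := by exact_mod_cast hR2
  have hR0 : (0 : ℝ) < R := by linarith
  obtain ⟨a, ha⟩ : ∃ a : ℕ, a = (6 * R + 4) / 5 := ⟨_, rfl⟩
  obtain ⟨b, hb⟩ : ∃ b : ℕ, b = 9 * R / 5 := ⟨_, rfl⟩
  have ha1 : 6 * R ≤ 5 * a := by omega
  have ha2 : 5 * a ≤ 6 * R + 4 := by omega
  have hb1 : 5 * b ≤ 9 * R := by omega
  have hb2 : 9 * R ≤ 5 * b + 4 := by omega
  have ha1r : 6 * (R : ℝ) ≤ 5 * a := by exact_mod_cast ha1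
  have ha2r : 5 * (a : ℝ) ≤ 6 * R + 4 := by exact_mod_cast ha2
  have hb1r : 5 * (b : ℝ) ≤ 9 * R := by exact_mod_cast hb1
  have hb2r : 9 * (R : ℝ) ≤ 5 * b + 4 := by exact_mod_cast hb2
  have hHr1 : 2 * (R : ℝ) ≤ H := by exact_mod_cast hH1
  have hHr2 : (H : ℝ) ≤ 2 * R + 1 := by exact_mod_cast hH2
  have hnn : ∀ q ∈ QQ R, 0 ≤ cq H q / ((q : ℝ) - 1) := by
    intro q hq
    unfold QQ at hq
    rw [mem_filter, mem_Ioc] at hq
    have hq1 : (1 : ℝ) < q := by exact_mod_cast hq.2.one_lt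
    have h1 : H % q ≤ q := (Nat.mod_lt _ (by omega)).le
    have h2 : ((H % q : ℕ) : ℝ) ≤ q := by exact_mod_cast h1
    refine div_nonneg ?_ (by linarith)
    unfold cq
    apply mul_nonneg (Nat.cast_nonneg _)
    rw [sub_nonneg, div_le_one (by linarith)]
    exact h2
  -- the good primes
  obtain ⟨Q1, hQ1⟩ : ∃ Q1 : Finset ℕ, Q1 = (Ioc a b).filter Nat.Prime := ⟨_, rfl⟩
  have hsub : Q1 ⊆ QQ R := by
    intro q hq
    rw [hQ1, mem_filter, mem_Ioc] at hq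
    unfold QQ
    rw [mem_filter, mem_Ioc]
    exact ⟨by omega, hq.2⟩
  have hgood : ∀ q ∈ Q1, 1 / 45 ≤ cq H q / ((q : ℝ) - 1) := by
    intro q hq
    rw [hQ1, mem_filter, mem_Ioc] at hq
    have q1 : 6 * (R : ℝ) ≤ 5 * q := by
      have : 6 * R ≤ 5 * q := by omega
      exact_mod_cast this
    have q2 : 5 * (q : ℝ) ≤ 9 * R := by
      have : 5 * q ≤ 9 * R := by omega
      exact_mod_cast this
    have q0 : (0 : ℝ) < q := by linarith
    have hmod : H % q = H - q := by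
      rw [Nat.mod_eq_sub_mod (by omega), Nat.mod_eq_of_lt (by omega)]
    have hc : ((H % q : ℕ) : ℝ) = (H : ℝ) - q := by
      rw [hmod, Nat.cast_sub (by omega)]
    rw [le_div_iff₀ (by linarith)]
    unfold cq
    rw [hc]
    have e1 : 1 - ((H : ℝ) - q) / q = (2 * q - H) / q := by
      field_simp
      ring
    rw [e1]
    have e2 : 1 / 5 ≤ (2 * (q : ℝ) - H) / q := by
      rw [le_div_iff₀ q0]
      linarith
    have e3 : 1 / 5 * (R : ℝ) ≤ (H : ℝ) - q := by linarith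
    have e4 := mul_le_mul e3 e2 (by norm_num) (by linarith)
    linarith
  have hM1 : (Q1.card : ℝ) / 45 ≤ ∑ q ∈ QQ R, cq H q / ((q : ℝ) - 1) := by
    refine le_trans ?_ (sum_le_sum_of_subset_of_nonneg hsub fun q hq _ => hnn q hq)
    calc (Q1.card : ℝ) / 45 = ∑ _q ∈ Q1, (1 / 45 : ℝ) := by
          rw [sum_const, nsmul_eq_mul]
          ring
      _ ≤ _ := sum_le_sum hgood
  -- counting
  have hlogR : 1 ≤ Real.log R := by
    rw [Real.le_log_iff_exp_le hR0]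
    have := Real.exp_one_lt_d9
    linarith
  have hlog2 : Real.log (2 * R) ≤ 2 * Real.log R := by
    rw [Real.log_mul (by norm_num) hR0.ne']
    have := Real.log_two_lt_d9
    linarith
  have c1 : ((QQ R).card : ℝ) * Real.log R ≤ 103 / 100 * R := by
    have h1 : ((QQ R).card : ℝ) * Real.log R ≤ ∑ n ∈ Ioc R (2 * R), pl n := by
      have h : ∑ n ∈ Ioc R (2 * R), pl n = ∑ q ∈ QQ R, Real.log q := by
        unfold QQ pl
        rw [Finset.sum_filter]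
      rw [h, ← nsmul_eq_mul, ← sum_const]
      refine sum_le_sum fun q hq => ?_
      unfold QQ at hq
      rw [mem_filter, mem_Ioc] at hq
      exact Real.log_le_log hR0 (by exact_mod_cast hq.1.1.le)
    have h2 := (abs_le.1 (hth R (2 * R) hR1 (by omega))).2
    push_cast at h2
    linarith
  have c2 : 1 / 2 * (R : ℝ) ≤ (Q1.card : ℝ) * (2 * Real.log R) := by
    have h1 : ∑ n ∈ Ioc a b, pl n ≤ (Q1.card : ℝ) * Real.log (2 * R) := by
      have h : ∑ n ∈ Ioc a b, pl n = ∑ q ∈ Q1, Real.log q := by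
        rw [hQ1]
        unfold pl
        rw [Finset.sum_filter]
      rw [h, ← nsmul_eq_mul]
      refine Finset.sum_le_card_nsmul _ _ _ fun q hq => ?_
      rw [hQ1, mem_filter, mem_Ioc] at hq
      have h1 : (0 : ℝ) < q := by exact_mod_cast hq.2.pos
      have h2 : (q : ℝ) ≤ 2 * R := by
        have : q ≤ 2 * R := by omega
        exact_mod_cast this
      exact Real.log_le_log h1 h2
    have h2 := (abs_le.1 (hth a b (by linarith) (by omega))).1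
    have h3 : (Q1.card : ℝ) * Real.log (2 * R) ≤ (Q1.card : ℝ) * (2 * Real.log R) :=
      mul_le_mul_of_nonneg_left hlog2 (Nat.cast_nonneg _)
    linarith
  have c3 : ((QQ R).card : ℝ) ≤ 103 / 25 * Q1.card := by
    have h1 : ((QQ R).card : ℝ) * Real.log R ≤ (103 / 25 * (Q1.card : ℝ)) * Real.log R := by
      linarith
    exact le_of_mul_le_mul_right h1 (by linarith)
  linarith

end Pool.Agent.H67.GU
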